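import Mathlib

namespace Pool.Agent.H826Z.PS

open Finset

/-- average -/
noncomputable def av {ι : Type} [Fintype ι] (f : ι → ℝ) : ℝ := (∑ i, f i) / Fintype.card ι

open Classical in
/-- indicator -/
noncomputable def ind (p : Prop) : ℝ := if p then 1 else 0

lemma ind_pos {p : Prop} (h : p) : ind p = 1 := by simp [ind, h]
lemma ind_neg {p : Prop} (h : ¬ p) : ind p = 0 := by simp [ind, h]
lemma ind_nonneg (p : Prop) : 0 ≤ ind p := by
  by_cases h : p
  · rw [ind_pos h]; norm_num
  · rw [ind_neg h]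
lemma ind_le_one (p : Prop) : ind p ≤ 1 := by
  by_cases h : p
  · rw [ind_pos h]
  · rw [ind_neg h]; norm_num
lemma ind_le {p : Prop} {x : ℝ} (h0 : 0 ≤ x) (h1 : p → 1 ≤ x) : ind p ≤ x := by
  by_cases h : p
  · rw [ind_pos h]; exact h1 h
  · rw [ind_neg h]; exact h0
lemma ind_mono {p q : Prop} (h : p → q) : ind p ≤ ind q :=
  ind_le (ind_nonneg _) (fun hp => (ind_pos (h hp)).ge)
lemma ind_congr {p q : Prop} (h : p ↔ q) : ind p = ind q :=
  le_antisymm (ind_mono h.1) (ind_mono h.2)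
lemma ind_not (p : Prop) : ind (¬ p) = 1 - ind p := by
  by_cases h : p
  · rw [ind_pos h, ind_neg (not_not.2 h)]; norm_num
  · rw [ind_neg h, ind_pos h]; norm_num
lemma ind_sq (p : Prop) : ind p ^ 2 = ind p := by
  by_cases h : p
  · rw [ind_pos h]; norm_num
  · rw [ind_neg h]; norm_num
lemma ind_le2 {p q r : Prop} (h : p → q ∨ r) : ind p ≤ ind q + ind r := by
  refine ind_le (add_nonneg (ind_nonneg _) (ind_nonneg _)) (fun hp => ?_)
  rcases h hp with h | h
  · rw [ind_pos h]; linarith [ind_nonneg r]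
  · rw [ind_pos h]; linarith [ind_nonneg q]
lemma ind_le3 {p q r t : Prop} (h : p → q ∨ r ∨ t) : ind p ≤ ind q + ind r + ind t := by
  have h1 := ind_le2 h
  have h2 : ind (r ∨ t) ≤ ind r + ind t := ind_le2 id
  linarith
lemma ind_le4 {p q r t w : Prop} (h : p → q ∨ r ∨ t ∨ w) :
    ind p ≤ ind q + ind r + ind t + ind w := by
  have h1 := ind_le2 h
  have h2 : ind (r ∨ t ∨ w) ≤ ind r + ind t + ind w := ind_le3 id
  linarith
lemma ind_exists_le {ι : Type} [Fintype ι] (p : ι → Prop) : ind (∃ i, p i) ≤ ∑ i, ind (p i) := by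
  refine ind_le (sum_nonneg fun i _ => ind_nonneg _) (fun ⟨i, hi⟩ => ?_)
  rw [← ind_pos hi]
  exact single_le_sum (f := fun i => ind (p i)) (fun i _ => ind_nonneg _) (mem_univ i)

variable {ι κ : Type} [Fintype ι] [Fintype κ]

lemma av_mono {f g : ι → ℝ} (h : ∀ i, f i ≤ g i) : av f ≤ av g :=
  div_le_div_of_nonneg_right (sum_le_sum fun i _ => h i) (Nat.cast_nonneg _)
lemma av_nonneg {f : ι → ℝ} (h : ∀ i, 0 ≤ f i) : 0 ≤ av f :=
  div_nonneg (sum_nonneg fun i _ => h i) (Nat.cast_nonneg _)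
lemma av_add (f g : ι → ℝ) : av (fun i => f i + g i) = av f + av g := by
  simp only [av, sum_add_distrib, add_div]
lemma av_sub (f g : ι → ℝ) : av (fun i => f i - g i) = av f - av g := by
  simp only [av, sum_sub_distrib, sub_div]
lemma av_mul_left (c : ℝ) (f : ι → ℝ) : av (fun i => c * f i) = c * av f := by
  simp only [av, ← mul_sum, mul_div_assoc]
lemma av_mul_right (c : ℝ) (f : ι → ℝ) : av (fun i => f i * c) = av f * c := by
  simp only [av, ← sum_mul]; ring
lemma card_pos' [Nonempty ι] : (0 : ℝ) < Fintype.card ι := by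
  exact_mod_cast Fintype.card_pos
lemma av_const [Nonempty ι] (c : ℝ) : av (fun _ : ι => c) = c := by
  have := card_pos' (ι := ι)
  simp only [av, sum_const, card_univ, nsmul_eq_mul]
  field_simp
lemma av_zero : av (fun _ : ι => (0 : ℝ)) = 0 := by simp [av]
lemma av_le_of_le [Nonempty ι] {f : ι → ℝ} {c : ℝ} (h : ∀ i, f i ≤ c) : av f ≤ c :=
  (av_mono h).trans (av_const c).le
lemma le_av_of_le [Nonempty ι] {f : ι → ℝ} {c : ℝ} (h : ∀ i, c ≤ f i) : c ≤ av f :=
  (av_const c).ge.trans (av_mono h)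
lemma av_comm (f : ι → κ → ℝ) : av (fun i => av (fun j => f i j)) = av (fun j => av (fun i => f i j)) := by
  simp only [av, ← sum_div]
  rw [sum_comm, div_right_comm]
lemma av_sum (f : ι → κ → ℝ) : av (fun i => ∑ j, f i j) = ∑ j, av (fun i => f i j) := by
  simp only [av, ← sum_div]
  rw [sum_comm]
lemma av_equiv (e : ι ≃ κ) (f : κ → ℝ) : av (fun i => f (e i)) = av f := by
  simp only [av]
  rw [Equiv.sum_comp e f, Fintype.card_congr e]
lemma av_prod (f : ι × κ → ℝ) : av f = av (fun i => av (fun j => f (i, j))) := by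
  simp only [av, ← sum_div, Fintype.card_prod, Nat.cast_mul]
  rw [Fintype.sum_prod_type, div_div, mul_comm]
lemma av_congr {f g : ι → ℝ} (h : ∀ i, f i = g i) : av f = av g := by
  rw [funext h]
lemma av_ind_nonneg (p : ι → Prop) : 0 ≤ av (fun i => ind (p i)) := av_nonneg fun _ => ind_nonneg _
lemma av_ind_le_one [Nonempty ι] (p : ι → Prop) : av (fun i => ind (p i)) ≤ 1 :=
  av_le_of_le fun _ => ind_le_one _
lemma av_ind_not [Nonempty ι] (p : ι → Prop) :
    av (fun i => ind (¬ p i)) = 1 - av (fun i => ind (p i)) := by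
  simp only [ind_not]
  rw [av_sub, av_const]
lemma exists_of_av_lt_one [Nonempty ι] {p : ι → Prop} (h : av (fun i => ind (¬ p i)) < 1) :
    ∃ i, p i := by
  by_contra hc
  push Not at hc
  have : av (fun i => ind (¬ p i)) = 1 := by
    rw [av_congr (g := fun _ => 1) (fun i => ind_pos (hc i)), av_const]
  linarith
lemma av_ind_pos {p : ι → Prop} (i : ι) (h : p i) : 0 < av (fun i => ind (p i)) := by
  have : Nonempty ι := ⟨i⟩
  refine div_pos ?_ card_pos'
  have := single_le_sum (f := fun i => ind (p i)) (fun i _ => ind_nonneg _) (mem_univ i)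
  rw [ind_pos h] at this
  linarith
lemma markov {f : ι → ℝ} (h : ∀ i, 0 ≤ f i) {p : ι → Prop} {g : ℝ} (hp : ∀ i, p i → g ≤ f i) :
    g * av (fun i => ind (p i)) ≤ av f := by
  rw [← av_mul_left]
  refine av_mono fun i => ?_
  by_cases hi : p i
  · rw [ind_pos hi, mul_one]; exact hp i hi
  · rw [ind_neg hi, mul_zero]; exact h i
lemma av_cs (f g : ι → ℝ) :
    av (fun i => f i * g i) ^ 2 ≤ av (fun i => f i ^ 2) * av (fun i => g i ^ 2) := by
  simp only [av, div_pow, div_mul_div_comm, ← sq]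
  exact div_le_div_of_nonneg_right (sum_mul_sq_le_sq_mul_sq _ _ _) (sq_nonneg _)
lemma av_single [DecidableEq ι] (v : ι) (f : ι → ℝ) :
    av (fun i => ind (i = v) * f i) = f v / Fintype.card ι := by
  unfold av
  congr 1
  rw [sum_eq_single v]
  · rw [ind_pos rfl, one_mul]
  · intro b _ hb; rw [ind_neg hb, zero_mul]
  · intro h; exact absurd (mem_univ v) h
lemma sum_ind_eq_card (p : ι → Prop) [DecidablePred p] :
    ∑ i, ind (p i) = ((univ.filter p).card : ℝ) := by
  rw [card_filter, Nat.cast_sum]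
  refine sum_congr rfl fun i _ => ?_
  by_cases h : p i
  · rw [ind_pos h, if_pos h]; norm_num
  · rw [ind_neg h, if_neg h]; norm_num

end Pool.Agent.H826Z.PS
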