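import Pool.Agent.H826Z.PS.SI

namespace Pool.Agent.H826Z.PS

open Finset Polynomial

lemma bias_field {k : ℕ} (F : Type) [Field F] [Fintype F] [Algebra (ZMod 2) F] (c : V k)
    (hc : c ≠ 0) :
    |∑ x : F × F, chi c (fun i => Algebra.trace (ZMod 2) F (x.2 * x.1 ^ i.val))| ≤
      k * Fintype.card F := by
  classical
  let P : F[X] := ∑ i : Fin k, monomial i.val (algebraMap (ZMod 2) F (c i))
  have hP : P ≠ 0 := by
    obtain ⟨i, hi⟩ := Function.ne_iff.1 hc
    intro h
    have h1 : P.coeff i = algebraMap (ZMod 2) F (c i) := by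
      simp only [P, finsetSum_coeff, coeff_monomial]
      rw [sum_eq_single i]
      · simp
      · intro b _ hb
        rw [if_neg fun h => hb (Fin.ext h)]
      · intro h; exact absurd (mem_univ i) h
    rw [h, coeff_zero] at h1
    exact hi ((algebraMap (ZMod 2) F).injective (by rw [← h1]; simp))
  have hdeg : P.natDegree ≤ k := by
    refine natDegree_sum_le_of_forall_le _ _ fun i _ => ?_
    exact (natDegree_monomial_le _).trans i.2.le
  have h1 : ∀ x y : F, chi c (fun i => Algebra.trace (ZMod 2) F (y * x ^ i.val)) =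
      sgn (Algebra.trace (ZMod 2) F (y * P.eval x)) := by
    intro x y
    unfold chi
    congr 1
    simp only [P, eval_finsetSum, eval_monomial, mul_sum, map_sum]
    refine sum_congr rfl fun i _ => ?_
    rw [← smul_eq_mul, ← map_smul, Algebra.smul_def]
    congr 1
    ring
  rw [Fintype.sum_prod_type]
  simp only [h1]
  have h2 : ∀ x : F, |∑ y : F, sgn (Algebra.trace (ZMod 2) F (y * P.eval x))| ≤
      ind (P.eval x = 0) * Fintype.card F := by
    intro x
    by_cases hx : P.eval x = 0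
    · rw [ind_pos hx, one_mul]
      refine (abs_sum_le_sum_abs _ _).trans (le_of_eq ?_)
      simp [abs_sgn]
    · rw [ind_neg hx, zero_mul]
      obtain ⟨z, hz⟩ := Algebra.trace_surjective (ZMod 2) F 1
      rw [sum_sgn_zero (fun y => Algebra.trace (ZMod 2) F (y * P.eval x))
        (fun a b => by rw [add_mul, map_add]) (z / P.eval x)
        (by simp only [div_mul_cancel₀ _ hx, hz]; exact one_ne_zero), abs_zero]
  refine (abs_sum_le_sum_abs _ _).trans ((sum_le_sum fun x _ => h2 x).trans ?_)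
  rw [← sum_mul, sum_ind_eq_card]
  refine mul_le_mul_of_nonneg_right ?_ (Nat.cast_nonneg _)
  have h3 : (univ.filter fun x : F => P.eval x = 0) ⊆ P.roots.toFinset := by
    intro x hx
    simp only [mem_filter, mem_univ, true_and] at hx
    simp [hP, hx]
  exact_mod_cast (card_le_card h3).trans
    ((Multiset.toFinset_card_le _).trans ((card_roots' P).trans hdeg))

theorem exists_biased (k : ℕ) : ∃ (S : Type) (_ : Fintype S) (_ : Nonempty S) (s : S → V k)
    (σ : Fin k → S), (∀ i, s (σ i) = eps i) ∧ Mix s (1 / (1000 * (k + 1))) ∧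
      Fintype.card S ≤ 10 ^ 8 * (k + 1) ^ 4 := by
  obtain ⟨m, hm0, hm1, hm2⟩ : ∃ m, m ≠ 0 ∧ 4000 * (k + 1) ^ 2 < 2 ^ m ∧
      2 ^ m ≤ 8000 * (k + 1) ^ 2 := by
    obtain ⟨x, hx⟩ : ∃ x, x = 4000 * (k + 1) ^ 2 := ⟨_, rfl⟩
    have hx0 : x ≠ 0 := by rw [hx]; positivity
    refine ⟨Nat.log 2 x + 1, Nat.succ_ne_zero _,
      hx ▸ Nat.lt_pow_succ_log_self (by norm_num) _, ?_⟩
    have := Nat.pow_log_le_self 2 hx0
    rw [pow_succ]
    omega
  let F := GaloisField 2 m
  let _ : Fintype F := Fintype.ofFinite F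
  have hF : Fintype.card F = 2 ^ m := by
    rw [← Nat.card_eq_fintype_card]
    exact GaloisField.card 2 m hm0
  refine ⟨(F × F) ⊕ Fin k, inferInstance, ⟨Sum.inl (0, 0)⟩,
    Sum.elim (fun x i => Algebra.trace (ZMod 2) F (x.2 * x.1 ^ i.val)) eps, Sum.inr,
    fun i => rfl, ?_, ?_⟩
  · have : Nonempty ((F × F) ⊕ Fin k) := ⟨Sum.inl (0, 0)⟩
    refine mix_of_bias fun c hc => ?_
    unfold av
    rw [Fintype.sum_sum_type]
    simp only [Sum.elim_inl, Sum.elim_inr]
    have h1 := bias_field F c hc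
    have h2 : |∑ i : Fin k, chi c (eps i)| ≤ k := by
      refine (abs_sum_le_sum_abs _ _).trans (le_of_eq ?_)
      simp [chi, abs_sgn]
    rw [abs_div, Nat.abs_cast, div_le_div_iff₀ card_pos' (by positivity)]
    have h3 := abs_add_le
      (∑ x : F × F, chi c (fun i => Algebra.trace (ZMod 2) F (x.2 * x.1 ^ i.val)))
      (∑ i : Fin k, chi c (eps i))
    simp only [Fintype.card_sum, Fintype.card_prod, Fintype.card_fin, hF] at h1 ⊢
    have h4 : (4000 * (k + 1) ^ 2 : ℝ) ≤ ((2 ^ m : ℕ) : ℝ) := by exact_mod_cast hm1.le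
    have hk : (0 : ℝ) ≤ k := Nat.cast_nonneg _
    rw [Nat.cast_add, Nat.cast_mul]
    set q : ℝ := ((2 ^ m : ℕ) : ℝ)
    have h5 : 1 ≤ q := by nlinarith
    have h6 := mul_le_mul_of_nonneg_right (h3.trans (add_le_add h1 h2))
      (by positivity : (0 : ℝ) ≤ 1000 * (k + 1))
    refine h6.trans ?_
    have h7 : (k * q + k) * (1000 * (k + 1)) ≤ q * (2000 * (k + 1) ^ 2) := by
      have : k * q + k ≤ 2 * (k + 1) * q := by nlinarith
      nlinarith
    nlinarith
  · simp only [Fintype.card_sum, Fintype.card_prod, Fintype.card_fin, hF]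
    have h1 := Nat.mul_le_mul hm2 hm2
    have h2 : k ≤ (k + 1) ^ 4 := (Nat.le_succ k).trans (Nat.le_self_pow (by norm_num) _)
    nlinarith

end Pool.Agent.H826Z.PS
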