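import Pool.Agent.H826Z.PS.Spec

namespace Pool.Agent.H826Z.PS

open Finset

variable {k : ℕ} {S : Type} [Fintype S] {X : Type}

/-- the step `σ` at position `a` is respected by the partial map `ω` -/
def good (s : S → V k) (u : S → Equiv.Perm X) (ω : V k → Option X) (a : V k) (σ : S) : Prop :=
  ∃ y, ω a = some y ∧ ω (a + s σ) = some (u σ y)

/-- fraction of bad steps at `a` -/
noncomputable def dev (s : S → V k) (u : S → Equiv.Perm X) (ω : V k → Option X) (a : V k) : ℝ :=
  av (fun σ => ind (¬ good s u ω a σ))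

/-- charts -/
def IsChart (s : S → V k) (u : S → Equiv.Perm X) (ω : V k → Option X) : Prop :=
  ∀ a, ω a ≠ none → dev s u ω a ≤ 1 / 10

/-- extension of partial maps -/
def Ext (ω ω' : V k → Option X) : Prop := ∀ a y, ω a = some y → ω' a = some y

/-- maximal nonempty charts -/
def IsMaxC (s : S → V k) (u : S → Equiv.Perm X) (ω : V k → Option X) : Prop :=
  IsChart s u ω ∧ (∃ a, ω a ≠ none) ∧ ∀ ω', IsChart s u ω' → Ext ω ω' → ω' = ω

/-- translation -/
def shift (c : V k) (ω : V k → Option X) : V k → Option X := fun a => ω (a + c)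

variable {s : S → V k} {u : S → Equiv.Perm X} {lam : ℝ}

omit [Fintype S] in
lemma good_mono {ω ω' : V k → Option X} (h : Ext ω ω') {a : V k} {σ : S} :
    good s u ω a σ → good s u ω' a σ :=
  fun ⟨y, h1, h2⟩ => ⟨y, h _ _ h1, h _ _ h2⟩

lemma dev_anti {ω ω' : V k → Option X} (h : Ext ω ω') (a : V k) : dev s u ω' a ≤ dev s u ω a :=
  av_mono fun _ => ind_mono fun h1 h2 => h1 (good_mono h h2)

lemma dev_nonneg (ω : V k → Option X) (a : V k) : 0 ≤ dev s u ω a := av_ind_nonneg _

lemma dev_le_one [Nonempty S] (ω : V k → Option X) (a : V k) : dev s u ω a ≤ 1 := av_ind_le_one _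

lemma dev_none [Nonempty S] {ω : V k → Option X} {a : V k} (h : ω a = none) : dev s u ω a = 1 := by
  unfold dev
  rw [av_congr (g := fun _ => 1), av_const]
  intro σ
  refine ind_pos ?_
  rintro ⟨y, h1, -⟩
  rw [h] at h1
  cases h1

omit [Fintype S] in
lemma good_shift (c : V k) (ω : V k → Option X) (a : V k) (σ : S) :
    good s u (shift c ω) a σ ↔ good s u ω (a + c) σ := by
  unfold good shift
  rw [add_right_comm a c]

lemma dev_shift (c : V k) (ω : V k → Option X) (a : V k) :
    dev s u (shift c ω) a = dev s u ω (a + c) :=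
  av_congr fun σ => ind_congr (not_congr (good_shift c ω a σ))

lemma shift_shift (c d : V k) (ω : V k → Option X) : shift c (shift d ω) = shift (c + d) ω := by
  funext a; simp only [shift, add_assoc]

lemma shift_zero (ω : V k → Option X) : shift 0 ω = ω := by
  funext a; simp only [shift, add_zero]

lemma shift_self (c : V k) (ω : V k → Option X) : shift c (shift c ω) = ω := by
  rw [shift_shift, V_add_self, shift_zero]

lemma IsChart.shift {ω : V k → Option X} (h : IsChart s u ω) (c : V k) :
    IsChart s u (shift c ω) := fun a ha => by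
  rw [dev_shift]; exact h _ ha

lemma IsMaxC.shift {ω : V k → Option X} (h : IsMaxC s u ω) (c : V k) :
    IsMaxC s u (shift c ω) := by
  obtain ⟨h1, ⟨a, ha⟩, h3⟩ := h
  refine ⟨h1.shift c, ⟨a + c, ?_⟩, fun ω' h4 h5 => ?_⟩
  · simpa only [PS.shift, add_assoc, V_add_self, add_zero] using ha
  · have := h3 (PS.shift c ω') (h4.shift c) (fun b y hb => by
      apply h5
      simpa only [PS.shift, add_assoc, V_add_self, add_zero] using hb)
    rw [← this, shift_self]

lemma compat [Nonempty S] (hm : Mix s lam) (hl : 0 ≤ lam) (hl1 : lam ≤ 1 / 1000)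
    {ω ω' : V k → Option X} (h : IsChart s u ω) (h' : IsChart s u ω') {a : V k} {y : X}
    (ha : ω a = some y) (ha' : ω' a = some y) {b : V k} {z z' : X} (hb : ω b = some z)
    (hb' : ω' b = some z') : z = z' := by
  by_contra hne
  let p : V k → Prop := fun c => ∃ w, ω c = some w ∧ ω' c = some w
  let q : V k → Prop := fun c => ∃ w w', ω c = some w ∧ ω' c = some w' ∧ w ≠ w'
  have key : ∀ (r : V k → Prop) (c : V k), ω c ≠ none → ω' c ≠ none →
      (∀ σ, good s u ω c σ → good s u ω' c σ → r (c + s σ)) →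
      8 / 10 ≤ MM s (fun c => ind (r c)) c := by
    intro r c h1 h2 h3
    have h4 : av (fun σ => ind (¬ r (c + s σ))) ≤ dev s u ω c + dev s u ω' c := by
      unfold dev
      rw [← av_add]
      refine av_mono fun σ => ind_le2 fun hr => ?_
      by_contra hc
      push Not at hc
      exact hr (h3 σ hc.1 hc.2)
    rw [av_ind_not] at h4
    have := h c h1
    have := h' c h2
    unfold MM
    linarith
  have hp := expand hm hl (p := p) (b := 8 / 10) a ⟨y, ha, ha'⟩ (fun c ⟨w, h1, h2⟩ =>
    key p c (by simp [h1]) (by simp [h2]) (fun σ ⟨y1, g1, g2⟩ ⟨y2, g3, g4⟩ => by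
      rw [h1] at g1; rw [h2] at g3
      cases g1; cases g3
      exact ⟨_, g2, g4⟩))
  have hq := expand hm hl (p := q) (b := 8 / 10) b ⟨z, z', hb, hb', hne⟩
    (fun c ⟨w, w', h1, h2, h3⟩ =>
    key q c (by simp [h1]) (by simp [h2]) (fun σ ⟨y1, g1, g2⟩ ⟨y2, g3, g4⟩ => by
      rw [h1] at g1; rw [h2] at g3
      cases g1; cases g3
      exact ⟨_, _, g2, g4, fun h => h3 ((u σ).injective h)⟩))
  have h5 : av (fun c => ind (p c)) + av (fun c => ind (q c)) ≤ 1 := by
    rw [← av_add]
    refine av_le_of_le fun c => ?_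
    by_cases hc : p c
    · have : ¬ q c := by
        rintro ⟨w, w', h1, h2, h3⟩
        obtain ⟨w0, g1, g2⟩ := hc
        rw [h1] at g1; rw [h2] at g2
        cases g1; cases g2
        exact h3 rfl
      rw [ind_neg this]; linarith [ind_le_one (p c)]
    · rw [ind_neg hc]; linarith [ind_le_one (q c)]
  linarith

lemma max_unique [Nonempty S] (hm : Mix s lam) (hl : 0 ≤ lam) (hl1 : lam ≤ 1 / 1000)
    {ω ω' : V k → Option X} (h : IsMaxC s u ω) (h' : IsMaxC s u ω') {a : V k} {y : X}
    (ha : ω a = some y) (ha' : ω' a = some y) : ω = ω' := by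
  let w : V k → Option X := fun c => (ω c).or (ω' c)
  have e1 : Ext ω w := fun c z hc => by simp [w, hc]
  have e2 : Ext ω' w := fun c z hc => by
    cases h1 : ω c with
    | none => simp [w, h1, hc]
    | some z' =>
      have := compat hm hl hl1 h.1 h'.1 ha ha' h1 hc
      simp [w, h1, this]
  have hw : IsChart s u w := fun c hc => by
    by_cases h1 : ω c = none
    · have h2 : ω' c ≠ none := by simpa [w, h1] using hc
      exact (dev_anti e2 c).trans (h'.1 c h2)
    · exact (dev_anti e1 c).trans (h.1 c h1)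
  rw [← h.2.2 w hw e1, h'.2.2 w hw e2]

lemma exists_max {ω : V k → Option X} (h : IsChart s u ω) (hne : ∃ a, ω a ≠ none) :
    ∃ ω', IsMaxC s u ω' ∧ Ext ω ω' := by
  classical
  let P : ℕ → Prop := fun n => ∃ ω', IsChart s u ω' ∧ Ext ω ω' ∧
    (univ.filter fun a => ω' a = none).card = n
  have hP : ∃ n, P n := ⟨_, ω, h, fun _ _ h => h, rfl⟩
  obtain ⟨ω', h1, h2, h3⟩ := Nat.find_spec hP
  refine ⟨ω', ⟨h1, ?_, fun w h4 h5 => ?_⟩, h2⟩
  · obtain ⟨a, ha⟩ := hne
    obtain ⟨y, hy⟩ := Option.ne_none_iff_exists'.1 ha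
    exact ⟨a, by simp [h2 a y hy]⟩
  · have h6 : Nat.find hP ≤ (univ.filter fun a => w a = none).card :=
      Nat.find_min' hP ⟨w, h4, fun a y hy => h5 a y (h2 a y hy), rfl⟩
    have h7 : (univ.filter fun a => w a = none) ⊆ (univ.filter fun a => ω' a = none) := by
      intro a ha
      simp only [mem_filter, mem_univ, true_and] at ha ⊢
      cases h8 : ω' a with
      | none => rfl
      | some y => rw [h5 a y h8] at ha; cases ha
    have h8 := eq_of_subset_of_card_le h7 (by rw [h3]; exact h6)
    funext a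
    cases h9 : ω' a with
    | none =>
      have : a ∈ (univ.filter fun a => w a = none) := by
        rw [h8]; simp [h9]
      simpa using this
    | some y => exact h5 a y h9

lemma fit [Nonempty S] {ω : V k → Option X} (h : IsMaxC s u ω) {a : V k} {z : X}
    (hz : av (fun σ => ind (¬ ω (a + s σ) = some (u σ z))) ≤ 1 / 10) : ω a = some z := by
  classical
  cases h1 : ω a with
  | none =>
    have e1 : Ext ω (Function.update ω a (some z)) := fun c y hc => by
      have : c ≠ a := by rintro rfl; rw [h1] at hc; cases hc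
      rw [Function.update_of_ne this, hc]
    have hw : IsChart s u (Function.update ω a (some z)) := fun c hc => by
      by_cases hca : c = a
      · subst hca
        refine le_trans ?_ hz
        refine av_mono fun σ => ind_mono fun h2 h3 => h2 ?_
        exact ⟨z, by simp, e1 _ _ h3⟩
      · rw [Function.update_of_ne hca] at hc
        exact (dev_anti e1 c).trans (h.1 c hc)
    have := congrFun (h.2.2 _ hw e1) a
    rw [h1] at this
    simp at this
  | some z' =>
    have h2 := h.1 a (by simp [h1])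
    have h3 : av (fun σ => ind (¬ (good s u ω a σ ∧ ω (a + s σ) = some (u σ z)))) < 1 := by
      have : av (fun σ => ind (¬ (good s u ω a σ ∧ ω (a + s σ) = some (u σ z)))) ≤
          dev s u ω a + av (fun σ => ind (¬ ω (a + s σ) = some (u σ z))) := by
        unfold dev
        rw [← av_add]
        exact av_mono fun σ => ind_le2 fun h4 => not_and_or.1 h4
      linarith
    obtain ⟨σ, ⟨y, g1, g2⟩, g3⟩ := exists_of_av_lt_one h3
    rw [h1] at g1
    cases g1
    rw [g2] at g3
    rw [(u σ).injective (Option.some.inj g3)]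

lemma caseA [Nonempty S] {ω : V k → Option X} (h : IsChart s u ω) {b : V k} {z : X}
    (hb : ω b = some z) :
    dev s u ω b ≤ 2 * av (fun σ => av (fun τ => ind (¬ u σ (u τ z) = u τ (u σ z)))) +
      4 * MM s (dev s u ω) b := by
  have h1 : ∀ σ τ, ind (¬ good s u ω b σ) ≤ ind (¬ good s u ω b σ) * ind (¬ good s u ω b τ) +
      ind (¬ u σ (u τ z) = u τ (u σ z)) + ind (¬ good s u ω (b + s τ) σ) +
        ind (¬ good s u ω (b + s σ) τ) := by
    intro σ τ
    by_cases g1 : good s u ω b τ
    · rw [ind_neg (not_not.2 g1), mul_zero, zero_add]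
      refine ind_le3 fun g0 => ?_
      by_contra hc
      push Not at hc
      obtain ⟨g2, ⟨y1, g3, g4⟩, ⟨y2, g5, g6⟩⟩ := hc
      obtain ⟨y0, g7, g8⟩ := g1
      rw [hb] at g7
      cases g7
      rw [g8] at g3
      cases g3
      rw [add_right_comm, g6, g2] at g4
      exact g0 ⟨z, hb, by rw [g5, (u τ).injective (Option.some.inj g4)]⟩
    · rw [ind_pos g1, mul_one]
      linarith [ind_nonneg (¬ u σ (u τ z) = u τ (u σ z)), ind_nonneg (¬ good s u ω (b + s τ) σ),
        ind_nonneg (¬ good s u ω (b + s σ) τ)]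
  have h2 : av (fun σ => av (fun _ : S => ind (¬ good s u ω b σ))) ≤
      av (fun σ => av (fun τ => ind (¬ good s u ω b σ) * ind (¬ good s u ω b τ) +
      ind (¬ u σ (u τ z) = u τ (u σ z)) + ind (¬ good s u ω (b + s τ) σ) +
        ind (¬ good s u ω (b + s σ) τ))) := av_mono fun σ => av_mono fun τ => h1 σ τ
  simp only [av_const, av_add, av_mul_left, av_mul_right] at h2
  rw [av_comm (fun σ τ => ind (¬ good s u ω (b + s τ) σ))] at h2
  have h3 := h b (by simp [hb])
  have h4 := dev_nonneg (s := s) (u := u) ω b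
  have h5 : 0 ≤ av (fun σ => av (fun τ => ind (¬ u σ (u τ z) = u τ (u σ z)))) :=
    av_nonneg fun _ => av_ind_nonneg _
  have h6 : 0 ≤ MM s (dev s u ω) b := MM_nonneg s (dev_nonneg ω) b
  change dev s u ω b ≤ dev s u ω b * dev s u ω b + _ + MM s (dev s u ω) b + MM s (dev s u ω) b at h2
  nlinarith

lemma none_le [Nonempty S] (ω : V k → Option X) :
    av (fun a => ind (ω a = none)) ≤ av (dev s u ω) :=
  av_mono fun a => ind_le (dev_nonneg ω a) fun h => (dev_none h).ge

lemma dev_split [Nonempty S] (hm : Mix s lam) (hl : 0 ≤ lam) (hl1 : lam ≤ 1 / 1000)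
    {ω : V k → Option X} (h : av (dev s u ω) ≤ 1 / 320) :
    av (dev s u ω) ≤ 3 * av (fun a => ind (¬ ω a = none) * dev s u ω a) := by
  have h1 := quad_ind hm hl (fun a => ω a = none)
  have h2 := none_le (s := s) (u := u) ω
  have h3 : av (dev s u ω) = av (fun a => ind (ω a = none)) +
      av (fun a => ind (¬ ω a = none) * dev s u ω a) := by
    rw [← av_add]
    refine av_congr fun a => ?_
    by_cases ha : ω a = none
    · rw [ind_pos ha, ind_neg (not_not.2 ha), dev_none ha]; norm_num
    · rw [ind_neg ha, ind_pos ha]; norm_num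
  have h4 : av (fun a => ind (ω a = none)) ≤
      av (fun a => ind (ω a = none) * MM s (fun b => ind (ω b = none)) a) +
        av (fun a => ind (¬ ω a = none) * dev s u ω a) := by
    rw [← av_add, ← av_MM s]
    refine av_mono fun a => ?_
    by_cases ha : ω a = none
    · rw [ind_pos ha, ind_neg (not_not.2 ha)]; norm_num
    · rw [ind_neg ha, ind_pos ha, zero_mul, zero_add, one_mul]
      refine av_mono fun σ => ind_mono ?_
      rintro h1 ⟨y, -, h2⟩
      rw [h1] at h2
      cases h2
  have h5 := av_ind_nonneg (fun a => ω a = none)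
  nlinarith

end Pool.Agent.H826Z.PS
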