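import Mathlib

namespace Pool.Agent.H826Z.PS

open Finset

/-- Normalised Hamming distance with errors between permutations of any two sizes:
`1 - #{i in both sets : σ i = τ i} / max n N`. -/
noncomputable def dh {n N : ℕ} (σ : Equiv.Perm (Fin n)) (τ : Equiv.Perm (Fin N)) : ℝ :=
  1 - ((univ.filter fun x : Fin n × Fin N =>
    x.1.val = x.2.val ∧ (σ x.1).val = (τ x.2).val).card : ℝ) / (max n N : ℕ)

/-- A finite presentation on the generating set `S`, with probability distributions on the
generators and on the relations. -/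
structure WPres (S : Type) [Fintype S] where
  /-- the relations -/
  R : Finset (FreeGroup S)
  /-- distribution on the generators -/
  muS : S → ℝ
  /-- distribution on the relations -/
  muR : FreeGroup S → ℝ
  muS_nonneg : ∀ s, 0 ≤ muS s
  muS_sum : ∑ s, muS s = 1
  muR_nonneg : ∀ r ∈ R, 0 ≤ muR r
  muR_sum : ∑ r ∈ R, muR r = 1

/-- The defect `‖δ α‖`: expected distance of `α r` from the identity. -/
noncomputable def defect {S : Type} [Fintype S] (P : WPres S) {n : ℕ}
    (α : S → Equiv.Perm (Fin n)) : ℝ :=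
  ∑ r ∈ P.R, P.muR r * dh (FreeGroup.lift α r) (1 : Equiv.Perm (Fin n))

/-- `ρ`-stability in permutations: each `α : S → Sym(n)` is within expected distance
`ρ (defect α)` of some `β : S → Sym(N)` satisfying all relations. -/
def IsStable {S : Type} [Fintype S] (P : WPres S) (ρ : ℝ → ℝ) : Prop :=
  ∀ n : ℕ, 2 ≤ n → ∀ α : S → Equiv.Perm (Fin n), ∃ N : ℕ, 2 ≤ N ∧
    ∃ β : S → Equiv.Perm (Fin N), (∀ r ∈ P.R, FreeGroup.lift β r = 1) ∧
      ∑ s, P.muS s * dh (α s) (β s) ≤ ρ (defect P α)

end Pool.Agent.H826Z.PS
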