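import Pool.Agent.H826Z.PS.Step

namespace Pool.Agent.H826Z.PS

open Finset

variable {k : ℕ} {S : Type} [Fintype S] {X : Type} [Fintype X]

/-- the set of nice charts -/
abbrev Om (s : S → V k) (e : Fin k → Equiv.Perm X) : Type := {ω : V k → Option X // Nice s e ω}

noncomputable instance (s : S → V k) (e : Fin k → Equiv.Perm X) : Fintype (Om s e) :=
  Fintype.ofFinite _

/-- translation of nice charts -/
def shiftE (s : S → V k) (e : Fin k → Equiv.Perm X) (c : V k) : Equiv.Perm (Om s e) where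
  toFun ω := ⟨shift c ω.1, ω.2.shift c⟩
  invFun ω := ⟨shift c ω.1, ω.2.shift c⟩
  left_inv ω := Subtype.ext (shift_self c ω.1)
  right_inv ω := Subtype.ext (shift_self c ω.1)

variable {s : S → V k} {e : Fin k → Equiv.Perm X} {lam : ℝ}

lemma sum_av_shift (Φ : (V k → Option X) → V k → ℝ)
    (hΦ : ∀ ω c, Φ (shift c ω) 0 = Φ ω c) :
    ∑ ω : Om s e, av (Φ ω.1) = ∑ ω : Om s e, Φ ω.1 0 := by
  rw [← av_sum (fun a (ω : Om s e) => Φ ω.1 a), av_congr (g := fun _ => ∑ ω : Om s e, Φ ω.1 0),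
    av_const]
  intro c
  rw [← Equiv.sum_comp (shiftE s e c) (fun ω : Om s e => Φ ω.1 0)]
  exact sum_congr rfl fun ω _ => (hΦ ω.1 c).symm

lemma count0 [Nonempty S] (hm : Mix s lam) (hl : 0 ≤ lam) (hl1 : lam ≤ 1 / 1000) (h : X → ℝ) :
    ∑ ω : Om s e, lift h (ω.1 0) = ∑ y, ind (InX s e y) * h y := by
  have h1 : ∀ o : Option X, lift h o = ∑ y, ind (o = some y) * h y := by
    intro o
    cases o with
    | none => simp [lift, ind_neg]
    | some z =>
      rw [sum_eq_single z]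
      · rw [ind_pos rfl, one_mul]; rfl
      · intro b _ hb; rw [ind_neg (by simpa using hb.symm), zero_mul]
      · intro h; exact absurd (mem_univ z) h
  simp only [h1]
  rw [sum_comm]
  refine sum_congr rfl fun y _ => ?_
  rw [← sum_mul]
  congr 1
  by_cases hy : InX s e y
  · obtain ⟨ω, h2, h3⟩ := hy
    rw [ind_pos ⟨ω, h2, h3⟩, sum_eq_single (⟨ω, h2⟩ : Om s e)]
    · exact ind_pos h3
    · intro b _ hb
      exact ind_neg fun h4 => hb (Subtype.ext (max_unique hm hl hl1 b.2.1 h2.1 h4 h3))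
    · intro h; exact absurd (mem_univ _) h
  · rw [ind_neg hy]
    exact sum_eq_zero fun ω _ => ind_neg fun h4 => hy ⟨ω.1, ω.2, h4⟩

lemma count [Nonempty S] (hm : Mix s lam) (hl : 0 ≤ lam) (hl1 : lam ≤ 1 / 1000) (h : X → ℝ) :
    ∑ ω : Om s e, av (fun a => lift h (ω.1 a)) = ∑ y, ind (InX s e y) * h y := by
  rw [← count0 hm hl hl1 h]
  exact sum_av_shift (fun ω a => lift h (ω a)) (fun ω c => by simp [shift])

lemma sum_ind_mul_le {T : X → ℝ} (hT : ∀ y, 0 ≤ T y) (p : X → Prop) :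
    ∑ y, ind (p y) * T y ≤ ∑ y, T y :=
  sum_le_sum fun y _ => by nlinarith [ind_le_one (p y), hT y]

lemma step_global [Nonempty S] (hm : Mix s lam) (hl : 0 ≤ lam) (hl1 : lam ≤ 1 / 1000)
    (hD : k * lam ^ 2 ≤ 1 / 10 ^ 6) {e' : Fin k → Equiv.Perm X} {t : Fin k} {g : Equiv.Perm X}
    (hn : Next s e e' t g) {T : X → ℝ} (hT1 : ∀ y, T y ≤ 1)
    (hT2 : ∀ y, T2 s e y ≤ T y) (hT3 : ∀ y, NN s e g y ≤ T y) :
    ∑ y, ind (InX s e y) * ind (Miss s e e' T y) ≤
      24 * 10 ^ 12 * ((k + 1) * lam ^ 2) * ∑ y, T y := by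
  have hT0 : ∀ y, 0 ≤ T y := fun y => (T2_nonneg y).trans (hT2 y)
  rw [← count hm hl hl1]
  refine (sum_le_sum fun ω _ => step_chart hm hl hl1 hD hn hT1 hT2 hT3 ω.2).trans ?_
  rw [← mul_sum, count hm hl hl1]
  exact mul_le_mul_of_nonneg_left (sum_ind_mul_le hT0 _) (by positivity)

lemma final_action [Nonempty S] (hm : Mix s lam) (hl : 0 ≤ lam) (hl1 : lam ≤ 1 / 1000)
    (hD : k * lam ^ 2 ≤ 1 / 10 ^ 6) {T : X → ℝ} (hT2 : ∀ y, T2 s e y ≤ T y) :
    ∃ (Y : Type) (_ : Fintype Y) (ι : X → Y) (ρ : V k → Equiv.Perm Y), Function.Injective ι ∧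
      (∀ a b, ρ (a + b) = ρ a * ρ b) ∧
      (Fintype.card Y : ℝ) - av (fun σ => ∑ x, ind (ρ (s σ) (ι x) = ι (uu s e σ x))) ≤
        ∑ x, ind (¬ InX s e x) + 7 * ∑ y, T y := by
  classical
  have hT0 : ∀ y, 0 ≤ T y := fun y => (T2_nonneg y).trans (hT2 y)
  let ι : X → Om s e ⊕ {x // ¬ InX s e x} := fun x =>
    if h : InX s e x then Sum.inl ⟨h.choose, h.choose_spec.1⟩ else Sum.inr ⟨x, h⟩
  have hι : ∀ (ω : Om s e) (y : X), ω.1 0 = some y → ι y = Sum.inl ω := by
    intro ω y hy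
    have h : InX s e y := ⟨ω.1, ω.2, hy⟩
    simp only [ι, dif_pos h]
    congr 1
    exact Subtype.ext (max_unique hm hl hl1 h.choose_spec.1.1 ω.2.1 h.choose_spec.2 hy)
  refine ⟨Om s e ⊕ {x // ¬ InX s e x}, inferInstance, ι,
    fun c => Equiv.sumCongr (shiftE s e c) (Equiv.refl _), ?_, ?_, ?_⟩
  · intro x y hxy
    by_cases hx : InX s e x <;> by_cases hy : InX s e y <;>
      simp only [ι, hx, hy, dif_pos, dif_neg, not_false_iff] at hxy
    · have h1 := hx.choose_spec.2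
      have h2 := hy.choose_spec.2
      have h3 : hx.choose = hy.choose := congrArg Subtype.val (Sum.inl.inj hxy)
      rw [h3, h2] at h1
      exact (Option.some.inj h1).symm
    · cases hxy
    · cases hxy
    · exact congrArg Subtype.val (Sum.inr.inj hxy)
  · intro a b
    ext1 x
    cases x with
    | inl ω =>
      simp only [Equiv.sumCongr_apply, Sum.map_inl, Equiv.Perm.mul_apply]
      congr 1
      exact Subtype.ext (shift_shift a b ω.1).symm
    | inr x => rfl
  · have h1 : ∀ σ, ∑ ω : Om s e, ind (good s (uu s e) ω.1 0 σ) ≤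
        ∑ x, ind ((Equiv.sumCongr (shiftE s e (s σ)) (Equiv.refl _)) (ι x) = ι (uu s e σ x)) := by
      intro σ
      refine le_trans ?_ (sum_ind_mul_le (fun _ => ind_nonneg _) (InX s e))
      rw [← count0 hm hl hl1]
      refine sum_le_sum fun ω _ => ind_le (lift_nonneg (fun _ => ind_nonneg _) _) ?_
      rintro ⟨y, g1, g2⟩
      rw [g1]
      refine (ind_pos ?_).ge
      rw [hι ω y g1, hι (shiftE s e (s σ) ω) _ g2]
      rfl
    have h2 := av_mono h1
    rw [av_sum] at h2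
    have h3 : ∀ ω : Om s e, av (fun σ => ind (good s (uu s e) ω.1 0 σ)) =
        1 - dev s (uu s e) ω.1 0 := by
      intro ω
      unfold dev
      rw [av_ind_not]; ring
    simp only [h3, sum_sub_distrib, sum_const, card_univ, nsmul_eq_mul, mul_one] at h2
    rw [← sum_av_shift (fun ω a => dev s (uu s e) ω a) (fun ω c => by rw [dev_shift, zero_add])]
      at h2
    have h4 : ∑ ω : Om s e, av (fun a => dev s (uu s e) ω.1 a) ≤ 7 * ∑ y, T y := by
      refine (sum_le_sum fun ω _ => (self_improve hm hl hl1 hD ω.2 hT2).1).trans ?_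
      rw [← mul_sum, count hm hl hl1]
      exact mul_le_mul_of_nonneg_left (sum_ind_mul_le hT0 _) (by norm_num)
    have h5 : ∑ x, ind (¬ InX s e x) = (Fintype.card {x // ¬ InX s e x} : ℝ) := by
      rw [sum_ind_eq_card, Fintype.card_subtype]
    rw [Fintype.card_sum, Nat.cast_add, h5]
    linarith

/-! levels -/

/-- the system keeping the first `t` permutations -/
def lev (e : Fin k → Equiv.Perm X) (t : ℕ) : Fin k → Equiv.Perm X :=
  fun i => if i.val < t then e i else 1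

omit [Fintype X] in
lemma pw_lev (e : Fin k → Equiv.Perm X) (t : ℕ) (a : V k) (j : ℕ) :
    pw (lev e t) a j = pw e a (min j t) := by
  induction j with
  | zero => simp [pw_zero]
  | succ j ih =>
    by_cases hj : j < t
    · have e1 : min (j + 1) t = min j t + 1 := by omega
      have e2 : min j t = j := by omega
      rw [e1]
      change fac (lev e t) a j * pw (lev e t) a j = fac e a (min j t) * pw e a (min j t)
      rw [ih, e2]
      congr 1
      simp [fac, lev, hj]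
    · have e1 : min (j + 1) t = min j t := by omega
      rw [e1, ← ih]
      change fac (lev e t) a j * pw (lev e t) a j = _
      have : fac (lev e t) a j = 1 := by simp [fac, lev, hj]
      rw [this, one_mul]

omit [Fintype X] in
lemma lev_top (e : Fin k → Equiv.Perm X) : lev e k = e := by
  funext i; simp [lev]

omit [Fintype X] [Fintype S] in
lemma uu_lev (s : S → V k) (e : Fin k → Equiv.Perm X) {t : ℕ} (ht : t ≤ k) (σ : S) :
    uu s (lev e t) σ = pw e (s σ) t := by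
  unfold uu
  rw [pw_lev, min_eq_right ht]

omit [Fintype X] [Fintype S] in
lemma next_lev (s : S → V k) (e : Fin k → Equiv.Perm X) (t : Fin k) :
    Next s (lev e t) (lev e (t + 1)) t (e t) where
  h0 := by simp [lev]
  h1 := by simp [lev]
  h2 i hi := by
    have : i.val ≠ t.val := fun h => hi (Fin.ext h)
    have : i.val < t.val + 1 ↔ i.val < t.val := by omega
    simp only [lev, this]
  hu σ := by
    rw [uu_lev s e t.2, uu_lev s e t.2.le]
    by_cases h : s σ t = 0
    · rw [pw_succ_zero e _ t h]; simp [gp, h]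
    · rw [pw_succ_one e _ t h]; simp [gp, h]

omit [Fintype X] in
lemma inX_zero (s : S → V k) (e : Fin k → Equiv.Perm X) (y : X) : InX s (lev e 0) y := by
  have hd : ∀ a, dev s (uu s (lev e 0)) (fun _ => some y) a = 0 := by
    intro a
    unfold dev
    rw [av_congr (g := fun _ => 0), av_zero]
    intro σ
    refine ind_neg (not_not.2 ⟨y, rfl, ?_⟩)
    rw [uu_lev s e (Nat.zero_le _), pw_zero]; rfl
  refine ⟨fun _ => some y, ⟨⟨fun a _ => by rw [hd]; norm_num, ⟨0, by simp⟩, fun ω' _ h => ?_⟩,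
    ?_, fun i => ?_⟩, rfl⟩
  · funext a; exact h a y rfl
  · rw [av_congr hd, av_zero]; norm_num
  · rw [av_congr (g := fun _ => 0), av_zero]
    · norm_num
    · intro a
      exact ind_neg (not_not.2 ⟨y, rfl, by simp [lev]⟩)

/-! raw tests -/

/-- atoms -/
def IsAtom {H : Type} [Monoid H] (e : Fin k → H) (a b : V k) (A : H) : Prop :=
  (∃ j, j ≤ k ∧ A = pw e a j) ∨ (∃ j, j ≤ k ∧ A = pw e b j) ∨ ∃ i, A = e i

/-- all local tests pass -/
def OK0 (e : Fin k → Equiv.Perm X) (a b : V k) (z : X) : Prop :=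
  (∀ A B, IsAtom e a b A → IsAtom e a b B → A (B z) = B (A z)) ∧
    ∀ A i, IsAtom e a b A → e i (e i (A z)) = A z

/-- depth one failure -/
noncomputable def F1 (s : S → V k) (e : Fin k → Equiv.Perm X) (z : X) : ℝ :=
  av (fun σ2 => av (fun σ3 => av (fun σ4 =>
    ind (∃ j, j ≤ k ∧ ¬ OK0 e (s σ3) (s σ4) (pw e (s σ2) j z)))))

/-- depth two failure -/
noncomputable def FF (s : S → V k) (e : Fin k → Equiv.Perm X) (y : X) : ℝ :=
  av (fun σ1 => av (fun σ2 => av (fun σ3 => av (fun σ4 =>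
    ind (∃ j1, j1 ≤ k ∧ ∃ j, j ≤ k ∧
      ¬ OK0 e (s σ3) (s σ4) (pw e (s σ2) j (pw e (s σ1) j1 y)))))))

omit [Fintype X] in
lemma F1_nonneg (z : X) : 0 ≤ F1 s e z :=
  av_nonneg fun _ => av_nonneg fun _ => av_ind_nonneg _

omit [Fintype X] in
lemma FF_nonneg (z : X) : 0 ≤ FF s e z :=
  av_nonneg fun _ => av_nonneg fun _ => av_nonneg fun _ => av_ind_nonneg _

omit [Fintype X] in
lemma F1_le_FF' (y : X) {t : ℕ} (ht : t ≤ k) :
    av (fun σ => F1 s e (pw e (s σ) t y)) ≤ FF s e y :=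
  av_mono fun _ => av_mono fun _ => av_mono fun _ => av_mono fun _ =>
    ind_mono fun h => ⟨t, ht, h⟩

omit [Fintype X] in
lemma F1_le_FF [Nonempty S] (y : X) : F1 s e y ≤ FF s e y := by
  have := F1_le_FF' (s := s) (e := e) y (Nat.zero_le k)
  simpa only [pw_zero, Equiv.Perm.one_apply, av_const] using this

omit [Fintype X] in
lemma T2_lev_le [Nonempty S] {t : ℕ} (ht : t ≤ k) (y : X) :
    T2 s (lev e t) y ≤ min 1 (80 * F1 s e y) := by
  refine le_min (av_ind_le_one _) ?_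
  unfold T2 F1
  rw [← av_mul_left]
  refine av_mono fun σ => ind_le (mul_nonneg (by norm_num)
    (av_nonneg fun _ => av_ind_nonneg _)) ?_
  rintro ⟨j, hj, h⟩
  rw [pw_lev] at h
  have : LL s (lev e t) (pw e (s σ) (min j t) y) ≤ av (fun σ3 => av (fun σ4 =>
      ind (∃ j, j ≤ k ∧ ¬ OK0 e (s σ3) (s σ4) (pw e (s σ) j y)))) := by
    refine av_mono fun σ3 => av_mono fun σ4 => ind_mono fun h1 =>
      ⟨min j t, by omega, fun h2 => h1 ?_⟩
    simp only [uu_lev s e ht]
    refine ⟨h2.1 _ _ (Or.inl ⟨t, ht, rfl⟩) (Or.inr (Or.inl ⟨t, ht, rfl⟩)), fun i => ?_⟩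
    by_cases hi : i.val < t
    · simp only [lev, if_pos hi]
      exact h2.1 _ _ (Or.inr (Or.inr ⟨i, rfl⟩)) (Or.inr (Or.inl ⟨t, ht, rfl⟩))
    · simp only [lev, if_neg hi, Equiv.Perm.one_apply]
  linarith

omit [Fintype X] in
lemma NN_lev_le [Nonempty S] (t : Fin k) (y : X) :
    NN s (lev e t) (e t) y ≤ min 1 (80 * F1 s e y) := by
  refine le_min (av_ind_le_one _) ?_
  have : NN s (lev e t) (e t) y ≤ F1 s e y := by
    refine le_av_of_le fun σ2 => le_av_of_le fun σ3 => av_mono fun σ4 => ind_mono fun h1 =>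
      ⟨0, Nat.zero_le _, fun h2 => h1 ?_⟩
    simp only [uu_lev s e t.2.le]
    rw [pw_zero, Equiv.Perm.one_apply] at h2
    refine ⟨h2.1 _ _ (Or.inr (Or.inr ⟨t, rfl⟩)) (Or.inr (Or.inl ⟨t, t.2.le, rfl⟩)),
      h2.2 _ _ (Or.inr (Or.inl ⟨t, t.2.le, rfl⟩)), fun i => ?_,
      h2.2 1 t (Or.inl ⟨0, Nat.zero_le _, rfl⟩)⟩
    by_cases hi : i.val < t
    · simp only [lev, if_pos hi]
      exact h2.1 _ _ (Or.inr (Or.inr ⟨t, rfl⟩)) (Or.inr (Or.inr ⟨i, rfl⟩))
    · simp only [lev, if_neg hi, Equiv.Perm.one_apply]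
  linarith [F1_nonneg (s := s) (e := e) y]

theorem global [Nonempty S] (hm : Mix s lam) (hl : 0 ≤ lam) (hl1 : (k + 1) * lam ≤ 1 / 1000) :
    ∃ (Y : Type) (_ : Fintype Y) (ι : X → Y) (ρ : V k → Equiv.Perm Y), Function.Injective ι ∧
      (∀ a b, ρ (a + b) = ρ a * ρ b) ∧
      (Fintype.card Y : ℝ) - av (fun σ => ∑ x, ind (ρ (s σ) (ι x) = ι (pw e (s σ) k x))) ≤
        10 ^ 10 * ∑ y, FF s e y := by
  have hk : (0 : ℝ) ≤ k := Nat.cast_nonneg _
  have hl2 : lam ≤ 1 / 1000 := by nlinarith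
  have hl3 : ((k + 1) * lam) ^ 2 ≤ (1 / 1000) ^ 2 := pow_le_pow_left₀ (by positivity) hl1 2
  have hl4 : k * ((k + 1) * lam ^ 2) ≤ 1 / 10 ^ 6 := by nlinarith [sq_nonneg lam]
  have hD : k * lam ^ 2 ≤ 1 / 10 ^ 6 := by
    nlinarith [sq_nonneg lam, mul_nonneg hk (mul_nonneg hk (sq_nonneg lam))]
  set T : X → ℝ := fun y => min 1 (80 * F1 s e y) with hT
  have hT1 : ∀ y, T y ≤ 1 := fun y => min_le_left _ _
  have hT2 : ∀ y, T y ≤ 80 * F1 s e y := fun y => min_le_right _ _
  have hTF : ∑ y, T y ≤ 80 * ∑ y, FF s e y := by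
    rw [mul_sum]
    exact sum_le_sum fun y _ => by linarith [hT2 y, F1_le_FF (s := s) (e := e) y]
  have hF0 : 0 ≤ ∑ y, FF s e y := sum_nonneg fun y _ => FF_nonneg y
  obtain ⟨Y, hY, ι, ρ, h1, h2, h3⟩ := final_action (e := e) hm hl hl2 hD (T := T)
    (fun y => by have := T2_lev_le (s := s) (e := e) le_rfl y; rwa [lev_top] at this)
  refine ⟨Y, hY, ι, ρ, h1, h2, le_trans h3 ?_⟩
  have h4 : ∀ x, ind (¬ InX s e x) ≤ 640 * 10 ^ 6 * FF s e x +
      ∑ t : Fin k, ind (InX s (lev e t) x) * ind (Miss s (lev e t) (lev e (t + 1)) T x) := by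
    intro x
    have n1 : 0 ≤ ∑ t : Fin k, ind (InX s (lev e t) x) *
        ind (Miss s (lev e t) (lev e (t + 1)) T x) :=
      sum_nonneg fun t _ => mul_nonneg (ind_nonneg _) (ind_nonneg _)
    have n2 := FF_nonneg (s := s) (e := e) x
    refine ind_le (by positivity) fun hx => ?_
    by_cases hF : 1 ≤ 640 * 10 ^ 6 * FF s e x
    · linarith
    have : ∃ t : Fin k, InX s (lev e t) x ∧ ¬ InX s (lev e (t + 1)) x := by
      by_contra hc
      push Not at hc
      have : ∀ t, t ≤ k → InX s (lev e t) x := by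
        intro t
        induction t with
        | zero => exact fun _ => inX_zero s e x
        | succ t ih => exact fun ht => hc ⟨t, ht⟩ (ih (by omega))
      have := this k le_rfl
      rw [lev_top] at this
      exact hx this
    obtain ⟨t, g1, g2⟩ := this
    have g3 : Miss s (lev e t) (lev e (t + 1)) T x := by
      refine ⟨g2, by linarith [hT2 x, F1_le_FF (s := s) (e := e) x], ?_⟩
      have g4 : av (fun σ => T (uu s (lev e t) σ x)) ≤
          80 * av (fun σ => F1 s e (pw e (s σ) t x)) := by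
        rw [← av_mul_left]
        refine av_mono fun σ => ?_
        rw [uu_lev s e t.2.le]
        exact hT2 _
      linarith [F1_le_FF' (s := s) (e := e) x t.2.le]
    have g5 := single_le_sum (f := fun t : Fin k => ind (InX s (lev e t) x) *
        ind (Miss s (lev e t) (lev e (t + 1)) T x))
        (fun t _ => mul_nonneg (ind_nonneg _) (ind_nonneg _)) (mem_univ t)
    simp only [ind_pos g1, ind_pos g3, mul_one] at g5
    have : 0 ≤ 640 * 10 ^ 6 * FF s e x := by positivity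
    linarith
  have h5 := sum_le_sum fun x (_ : x ∈ univ) => h4 x
  rw [sum_add_distrib, ← mul_sum, sum_comm] at h5
  have h6 : ∑ t : Fin k, ∑ x, ind (InX s (lev e t) x) *
      ind (Miss s (lev e t) (lev e (t + 1)) T x) ≤
      ∑ t : Fin k, 24 * 10 ^ 12 * ((k + 1) * lam ^ 2) * ∑ y, T y :=
    sum_le_sum fun t _ => step_global hm hl hl2 hD (next_lev s e t) hT1
      (T2_lev_le t.2.le) (NN_lev_le t)
  simp only [sum_const, card_univ, Fintype.card_fin, nsmul_eq_mul] at h6
  have hT0 : 0 ≤ ∑ y, T y := sum_nonneg fun y _ =>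
    le_min zero_le_one (mul_nonneg (by norm_num) (F1_nonneg y))
  have h7 := mul_le_mul_of_nonneg_right hl4 hT0
  nlinarith

end Pool.Agent.H826Z.PS
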