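import Pool.Agent.H826Z.PS.Global

namespace Pool.Agent.H826Z.PS

open Finset

variable {k : ℕ}

lemma map_pre {H H' : Type} [Monoid H] [Monoid H'] (φ : H →* H') (f : ℕ → H) (n : ℕ) :
    φ (pre f n) = pre (fun i => φ (f i)) n := by
  induction n with
  | zero => simp [pre]
  | succ n ih => simp [pre, ih]

lemma map_pw {H H' : Type} [Monoid H] [Monoid H'] (φ : H →* H') (e : Fin k → H) (a : V k)
    (j : ℕ) : φ (pw e a j) = pw (fun i => φ (e i)) a j := by
  unfold pw
  rw [map_pre]
  congr 1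
  funext i
  unfold fac
  split_ifs <;> simp

lemma pre_fix {X : Type} (f : ℕ → Equiv.Perm X) (y : X) (n : ℕ) (h : ∀ m, m < n → f m y = y) :
    pre f n y = y := by
  induction n with
  | zero => rfl
  | succ n ih =>
    change f n (pre f n y) = y
    rw [ih (fun m hm => h m (by omega)), h n (by omega)]

lemma pre_move {X : Type} (f : ℕ → Equiv.Perm X) (y : X) (n m0 : ℕ) (h0 : m0 < n)
    (h1 : f m0 y ≠ y) (h : ∀ m, m < n → m ≠ m0 → f m y = y) : pre f n y ≠ y := by
  induction n with
  | zero => omega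
  | succ n ih =>
    change f n (pre f n y) ≠ y
    by_cases hn : n = m0
    · subst hn
      rw [pre_fix f y n (fun m hm => h m (by omega) (by omega))]
      exact h1
    · intro h2
      refine ih (by omega) (fun m hm => h m (by omega)) ((f n).injective ?_)
      rw [h2, h n (by omega) hn]

/-- index set of atoms -/
abbrev At (k : ℕ) : Type := Fin (k + 1) ⊕ Fin (k + 1) ⊕ Fin k

/-- atoms -/
def atom {H : Type} [Monoid H] (e : Fin k → H) (a b : V k) : At k → H
  | Sum.inl j => pw e a j
  | Sum.inr (Sum.inl j) => pw e b j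
  | Sum.inr (Sum.inr i) => e i

/-- index set of the elementary relators -/
abbrev Ix (k : ℕ) : Type := Fin (k + 1) × Fin (k + 1) × At k × At k × Option (Fin k)

/-- core of an elementary relator -/
def core {H : Type} [Group H] (e : Fin k → H) (A B : H) : Option (Fin k) → H
  | none => (B * A)⁻¹ * (A * B)
  | some i => A⁻¹ * (e i * e i * A)

/-- elementary relators -/
def rel {H : Type} [Group H] (e : Fin k → H) (a1 a2 a3 a4 : V k) (ι : Ix k) : H :=
  (pw e a2 ι.2.1 * pw e a1 ι.1)⁻¹ *
    core e (atom e a3 a4 ι.2.2.1) (atom e a3 a4 ι.2.2.2.1) ι.2.2.2.2 *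
      (pw e a2 ι.2.1 * pw e a1 ι.1)

lemma map_atom {H H' : Type} [Monoid H] [Monoid H'] (φ : H →* H') (e : Fin k → H) (a b : V k)
    (x : At k) : φ (atom e a b x) = atom (fun i => φ (e i)) a b x := by
  rcases x with j | j | i <;> simp [atom, map_pw]

lemma map_rel {H H' : Type} [Group H] [Group H'] (φ : H →* H') (e : Fin k → H)
    (a1 a2 a3 a4 : V k) (ι : Ix k) :
    φ (rel e a1 a2 a3 a4 ι) = rel (fun i => φ (e i)) a1 a2 a3 a4 ι := by
  obtain ⟨j1, j2, A, B, o⟩ := ι
  cases o <;> simp [rel, core, map_pw, map_atom]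

lemma isAtom_atom {H : Type} [Monoid H] {e : Fin k → H} {a b : V k} {A : H}
    (h : IsAtom e a b A) : ∃ x, A = atom e a b x := by
  rcases h with ⟨j, hj, h⟩ | ⟨j, hj, h⟩ | ⟨i, h⟩
  · exact ⟨Sum.inl ⟨j, by omega⟩, h⟩
  · exact ⟨Sum.inr (Sum.inl ⟨j, by omega⟩), h⟩
  · exact ⟨Sum.inr (Sum.inr i), h⟩

lemma fail_rel {X : Type} {e : Fin k → Equiv.Perm X} {a1 a2 a3 a4 : V k} {y : X}
    (h : ∃ j1, j1 ≤ k ∧ ∃ j, j ≤ k ∧ ¬ OK0 e a3 a4 (pw e a2 j (pw e a1 j1 y))) :
    ∃ ι, rel e a1 a2 a3 a4 ι y ≠ y := by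
  obtain ⟨j1, h1, j, h2, h3⟩ := h
  by_contra hc
  push Not at hc
  refine h3 ⟨fun A B hA hB => ?_, fun A i hA => ?_⟩
  · obtain ⟨x, rfl⟩ := isAtom_atom hA
    obtain ⟨x', rfl⟩ := isAtom_atom hB
    have := hc (⟨j1, by omega⟩, ⟨j, by omega⟩, x, x', none)
    simp only [rel, core, Equiv.Perm.mul_apply] at this
    rw [Equiv.Perm.inv_eq_iff_eq, Equiv.Perm.inv_eq_iff_eq] at this
    exact this
  · obtain ⟨x, rfl⟩ := isAtom_atom hA
    have := hc (⟨j1, by omega⟩, ⟨j, by omega⟩, x, x, some i)
    simp only [rel, core, Equiv.Perm.mul_apply] at this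
    rw [Equiv.Perm.inv_eq_iff_eq, Equiv.Perm.inv_eq_iff_eq] at this
    exact this

/-- sub-product selected by a pairwise independent hash -/
def isoW {H : Type} [Monoid H] {M p : ℕ} (c : Fin M → H) (a b : ZMod p) (l : ℕ) : H :=
  pre (fun m => if h : m < M then (if (a * m + b).val < 2 ^ l then c ⟨m, h⟩ else 1) else 1) M

lemma map_isoW {H H' : Type} [Monoid H] [Monoid H'] (φ : H →* H') {M p : ℕ} (c : Fin M → H)
    (a b : ZMod p) (l : ℕ) : φ (isoW c a b l) = isoW (fun m => φ (c m)) a b l := by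
  unfold isoW
  rw [map_pre]
  congr 1
  funext i
  split_ifs <;> simp

lemma av_val_lt {p : ℕ} [Fact p.Prime] {r : ℕ} (hr : r ≤ p) :
    av (fun z : ZMod p => ind (z.val < r)) = r / p := by
  unfold av
  rw [sum_ind_eq_card, ZMod.card]
  congr 2
  rw [← card_range r]
  refine card_bij (fun z _ => z.val) (fun z hz => by simpa using hz)
    (fun z _ w _ h => ZMod.val_injective p h) (fun n hn => ?_)
  have hn' : n < r := by simpa using hn
  exact ⟨(n : ZMod p), by simp [ZMod.val_cast_of_lt (hn'.trans_le hr), hn'],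
    ZMod.val_cast_of_lt (hn'.trans_le hr)⟩

lemma av_pair {p : ℕ} [Fact p.Prime] (f : ZMod p → ℝ) {m m' : ZMod p} (h : m ≠ m') :
    av (fun a : ZMod p => av (fun b : ZMod p => f (a * m + b) * f (a * m' + b))) = av f ^ 2 := by
  have h1 : ∀ a : ZMod p, av (fun b : ZMod p => f (a * m + b) * f (a * m' + b)) =
      av (fun b : ZMod p => f b * f (a * (m' - m) + b)) := by
    intro a
    rw [← av_equiv (Equiv.addLeft (a * m)) (fun b : ZMod p => f b * f (a * (m' - m) + b))]
    refine av_congr fun b => ?_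
    simp only [Equiv.coe_addLeft]
    congr 2
    ring
  rw [av_congr h1, av_comm]
  have h2 : ∀ b : ZMod p, av (fun a : ZMod p => f b * f (a * (m' - m) + b)) = f b * av f := by
    intro b
    rw [av_mul_left]
    congr 1
    exact av_equiv ((Equiv.mulRight₀ (m' - m) (sub_ne_zero.2 h.symm)).trans (Equiv.addRight b)) f
  rw [av_congr h2, av_mul_right, sq]

lemma iso_move {X : Type} {M p : ℕ} [Fact p.Prime] (hp : 2 * M ≤ p) (c : Fin M → Equiv.Perm X)
    (y : X) (h : ∃ m, c m y ≠ y) :
    3 / (16 * (Nat.log 2 p + 1 : ℕ)) ≤ av (fun l : Fin (Nat.log 2 p + 1) => av (fun a : ZMod p =>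
      av (fun b : ZMod p => ind (isoW c a b l y ≠ y)))) := by
  classical
  let D : Finset (Fin M) := univ.filter fun m => c m y ≠ y
  have hD1 : 1 ≤ D.card := by
    obtain ⟨m, hm⟩ := h
    exact card_pos.2 ⟨m, by simp [D, hm]⟩
  have hD2 : D.card ≤ M := by simpa using card_le_univ D
  set d := D.card with hd
  have hq : 1 ≤ p / (2 * d) := (Nat.le_div_iff_mul_le (by omega)).2 (by omega)
  set l := Nat.log 2 (p / (2 * d)) with hl
  have hl1 : 2 ^ l ≤ p / (2 * d) := Nat.pow_log_le_self 2 (by omega)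
  have hl2 : p / (2 * d) < 2 ^ (l + 1) := Nat.lt_pow_succ_log_self (by norm_num) _
  have hl3 : 2 ^ l * (2 * d) ≤ p := (Nat.le_div_iff_mul_le (by omega)).1 hl1
  have hl4 : p < 2 ^ (l + 1) * (2 * d) := (Nat.div_lt_iff_lt_mul (by omega)).1 hl2
  have hl5 : l < Nat.log 2 p + 1 :=
    Nat.lt_succ_of_le (Nat.log_mono_right (Nat.div_le_self _ _))
  have hp0 : (0 : ℝ) < p := by exact_mod_cast (Fact.out : p.Prime).pos
  set f : ZMod p → ℝ := fun z => ind (z.val < 2 ^ l) with hf
  have hfa : av f = (2 ^ l : ℕ) / p := av_val_lt (by nlinarith)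
  have hpt : ∀ a b : ZMod p, ∑ m ∈ D, f (a * (m.val : ZMod p) + b) -
      ∑ m ∈ D, ∑ m' ∈ D.erase m, f (a * (m.val : ZMod p) + b) * f (a * (m'.val : ZMod p) + b) ≤
        ind (isoW c a b l y ≠ y) := by
    intro a b
    let E := D.filter fun m => (a * (m.val : ZMod p) + b).val < 2 ^ l
    have e2 : ∑ m ∈ D, f (a * (m.val : ZMod p) + b) = E.card := by
      rw [card_filter, Nat.cast_sum]
      refine sum_congr rfl fun m _ => ?_
      by_cases h3 : (a * (m.val : ZMod p) + b).val < 2 ^ l
      · rw [if_pos h3]; simpa using ind_pos h3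
      · rw [if_neg h3]; simpa using ind_neg h3
    have e3 : ∑ m ∈ D, ∑ m' ∈ D.erase m, f (a * (m.val : ZMod p) + b) *
        f (a * (m'.val : ZMod p) + b) = (E.card : ℝ) ^ 2 - E.card := by
      have : ∀ m ∈ D, ∑ m' ∈ D.erase m, f (a * (m.val : ZMod p) + b) *
          f (a * (m'.val : ZMod p) + b) = f (a * (m.val : ZMod p) + b) * E.card -
            f (a * (m.val : ZMod p) + b) := by
        intro m hm
        rw [← mul_sum, sum_erase_eq_sub hm, e2, mul_sub, ← sq]
        congr 1
        exact ind_sq _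
      rw [sum_congr rfl this, sum_sub_distrib, ← sum_mul, e2]; ring
    rw [e2, e3]
    by_cases h1 : E.card = 1
    · obtain ⟨m0, hm0⟩ := card_eq_one.1 h1
      have g1 : m0 ∈ E := by rw [hm0]; exact mem_singleton_self _
      rw [ind_pos, h1]
      · norm_num
      refine pre_move _ y M m0 m0.2 ?_ (fun m hm hne => ?_)
      · simp only [dif_pos m0.2, if_pos (mem_filter.1 g1).2]
        exact (mem_filter.1 (mem_filter.1 g1).1).2
      · simp only [dif_pos hm]
        split_ifs with g2
        · by_contra g3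
          have : (⟨m, hm⟩ : Fin M) ∈ E := mem_filter.2 ⟨mem_filter.2 ⟨mem_univ _, g3⟩, g2⟩
          rw [hm0, mem_singleton] at this
          exact hne (congrArg Fin.val this)
        · rfl
    · refine le_trans ?_ (ind_nonneg _)
      rcases Nat.eq_zero_or_pos E.card with h2 | h2
      · rw [h2]; norm_num
      · have : (2 : ℝ) ≤ E.card := by exact_mod_cast (by omega : 2 ≤ E.card)
        nlinarith
  have hav : 3 / 16 ≤ av (fun a : ZMod p => av (fun b : ZMod p => ind (isoW c a b l y ≠ y))) := by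
    refine le_trans ?_ (av_mono fun a => av_mono fun b => hpt a b)
    simp only [av_sub]
    have s1 : av (fun a : ZMod p => av (fun b : ZMod p =>
        ∑ m ∈ D, f (a * (m.val : ZMod p) + b))) = d * av f := by
      rw [av_congr (g := fun _ => d * av f), av_const]
      intro a
      simp only [← sum_coe_sort D]
      rw [av_sum]
      have e0 : ∀ z : ZMod p, av (fun i => f (z + i)) = av f :=
        fun z => av_equiv (Equiv.addLeft z) f
      simp [hd, e0]
    have s2 : av (fun a : ZMod p => av (fun b : ZMod p => ∑ m ∈ D, ∑ m' ∈ D.erase m,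
        f (a * (m.val : ZMod p) + b) * f (a * (m'.val : ZMod p) + b))) ≤ (d * av f) ^ 2 := by
      simp only [← sum_coe_sort D, av_sum]
      have : ∀ m : D, av (fun a : ZMod p => av (fun b : ZMod p => ∑ m' ∈ D.erase m,
          f (a * (m.1.val : ZMod p) + b) * f (a * (m'.val : ZMod p) + b))) ≤ d * av f ^ 2 := by
        intro m
        simp only [← sum_coe_sort (D.erase m), av_sum]
        rw [sum_congr rfl (g := fun _ => av f ^ 2)]
        · simp only [sum_const, card_univ, Fintype.card_coe, nsmul_eq_mul]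
          refine mul_le_mul_of_nonneg_right ?_ (sq_nonneg _)
          exact_mod_cast card_erase_le
        · intro m' _
          refine av_pair f fun g => (mem_erase.1 m'.2).1 (Fin.ext ?_)
          have g1 := congrArg ZMod.val g
          rw [ZMod.val_cast_of_lt (by have := m.1.2; omega),
            ZMod.val_cast_of_lt (by have := m'.1.2; omega)] at g1
          exact g1.symm
      refine (sum_le_sum fun m _ => this m).trans (le_of_eq ?_)
      simp only [sum_const, card_univ, Fintype.card_coe, nsmul_eq_mul]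
      rw [← hd]; ring
    rw [s1]
    have x1 : d * av f ≤ 1 / 2 := by
      rw [hfa, ← mul_div_assoc, div_le_iff₀ hp0]
      have : ((2 ^ l * (2 * d) : ℕ) : ℝ) ≤ p := by exact_mod_cast hl3
      push_cast at this ⊢
      linarith
    have x2 : 1 / 4 ≤ d * av f := by
      rw [hfa, ← mul_div_assoc, le_div_iff₀ hp0]
      have : (p : ℝ) ≤ ((2 ^ (l + 1) * (2 * d) : ℕ) : ℝ) := by exact_mod_cast hl4.le
      push_cast at this ⊢
      rw [pow_succ] at this
      linarith
    nlinarith
  have h9 := single_le_sum (s := univ) (f := fun l : Fin (Nat.log 2 p + 1) =>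
    av (fun a : ZMod p => av (fun b : ZMod p => ind (isoW c a b l y ≠ y))))
    (fun l _ => av_nonneg fun _ => av_ind_nonneg _) (mem_univ ⟨l, hl5⟩)
  have hL : (0 : ℝ) < (Nat.log 2 p + 1 : ℕ) := by positivity
  rw [av, Fintype.card_fin, le_div_iff₀ hL]
  have : 3 / (16 * ((Nat.log 2 p + 1 : ℕ) : ℝ)) * ((Nat.log 2 p + 1 : ℕ) : ℝ) = 3 / 16 := by
    field_simp
  rw [this]
  exact hav.trans h9

end Pool.Agent.H826Z.PS
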