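import Pool.Agent.H826Z.PS.Pres

namespace Pool.Agent.H826Z.PS

open Finset

variable {k : ℕ}

/-- the weighted presentation given by a family of words, both distributions uniform on the
index sets -/
noncomputable def ofWords {S J : Type} [Fintype S] [Nonempty S] [DecidableEq S] [Fintype J]
    [Nonempty J] (w : J → FreeGroup S) : WPres S where
  R := univ.image w
  muS _ := 1 / Fintype.card S
  muR r := ((univ.filter fun j => w j = r).card : ℝ) / Fintype.card J
  muS_nonneg _ := by positivity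
  muS_sum := by
    have := card_pos' (ι := S)
    simp only [sum_const, card_univ, nsmul_eq_mul]
    field_simp
  muR_nonneg _ _ := by positivity
  muR_sum := by
    have := card_pos' (ι := J)
    rw [← sum_div, ← Nat.cast_sum, ← card_eq_sum_card_image, card_univ]
    field_simp

lemma sum_muR {S J : Type} [Fintype S] [Nonempty S] [DecidableEq S] [Fintype J]
    [Nonempty J] (w : J → FreeGroup S) (g : FreeGroup S → ℝ) :
    ∑ r ∈ (ofWords w).R, (ofWords w).muR r * g r = av (fun j => g (w j)) := by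
  unfold av
  rw [sum_comp g w, sum_div]
  refine sum_congr rfl fun r _ => ?_
  simp only [ofWords, nsmul_eq_mul]
  ring

lemma sum_muS {S J : Type} [Fintype S] [Nonempty S] [DecidableEq S] [Fintype J]
    [Nonempty J] (w : J → FreeGroup S) (g : S → ℝ) :
    ∑ x, (ofWords w).muS x * g x = av g := by
  unfold av
  rw [sum_div]
  refine sum_congr rfl fun r _ => ?_
  simp only [ofWords]
  ring

lemma av_bool (f : Bool → ℝ) : av f = (f true + f false) / 2 := by
  simp [av]

lemma stable {S : Type} [Fintype S] [Nonempty S] [DecidableEq S] {p : ℕ} [Fact p.Prime]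
    (hp : 2 * Fintype.card (Ix k) ≤ p) (s : S → V k) (σ : Fin k → S) (hσ : ∀ i, s (σ i) = eps i)
    (hm : Mix s (1 / (1000 * (k + 1)))) :
    IsStable (ofWords (word (p := p) s σ FreeGroup.of))
      (fun ε => 2 * 10 ^ 11 * (Nat.log 2 p + 1 : ℕ) * ε) := by
  intro n hn α
  have hk : (0 : ℝ) < k + 1 := by positivity
  obtain ⟨Y, hY, ι, ρ, h1, h2, h3⟩ := global (X := Fin n) (e := fun i => α (σ i)) hm
    (by positivity) (le_of_eq (by field_simp))
  have hnN : n ≤ Fintype.card Y := by simpa using Fintype.card_le_of_injective ι h1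
  set N := Fintype.card Y with hN
  obtain ⟨τ, hτ⟩ := Equiv.Perm.exists_extending_pair
    (f := fun x => Fintype.equivFin Y (ι x)) (g := Fin.castLE hnN)
    ((Fintype.equivFin Y).injective.comp h1) (Fin.castLE_injective hnN)
  let θ : Y ≃ Fin N := (Fintype.equivFin Y).trans τ
  have hθ : ∀ x, θ (ι x) = Fin.castLE hnN x := hτ
  let ρ' : Multiplicative (V k) →* Equiv.Perm (Fin N) :=
    MonoidHom.mk' (fun a => θ.permCongr (ρ a.toAdd)) (fun a b => by
      rw [toAdd_mul, h2]
      ext x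
      simp)
  refine ⟨N, hn.trans hnN, fun x => ρ' (Multiplicative.ofAdd (s x)), fun r hr => ?_, ?_⟩
  · obtain ⟨j, -, rfl⟩ := mem_image.1 hr
    rw [map_word]
    simp only [FreeGroup.lift_apply_of]
    rw [← map_word ρ', word_eq_one s σ hσ, map_one]
  have hn0 : 0 < n := by omega
  have : Nonempty (Fin n) := ⟨⟨0, hn0⟩⟩
  have hnR : (0 : ℝ) < n := by exact_mod_cast hn0
  have hnN' : (n : ℝ) ≤ N := by exact_mod_cast hnN
  unfold defect
  rw [sum_muS, sum_muR (g := fun r => dh (FreeGroup.lift α r) (1 : Equiv.Perm (Fin n)))]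
  simp only [map_word, FreeGroup.lift_apply_of, dh_one hn0]
  set e : Fin k → Equiv.Perm (Fin n) := fun i => α (σ i) with he
  set D1 : ℝ := av (fun σ1 => av (fun σ2 => av (fun σ3 => av (fun σ4 =>
    av (fun l : Fin (Nat.log 2 p + 1) => av (fun a : ZMod p => av (fun b : ZMod p => av (fun y =>
      ind (isoW (fun m => rel e (s σ1) (s σ2) (s σ3) (s σ4)
        ((Fintype.equivFin (Ix k)).symm m)) a b l y ≠ y))))))))) with hD1
  set D2 : ℝ := av (fun x => av (fun y => ind (((α x)⁻¹ * pw e (s x) k) y ≠ y))) with hD2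
  have e1 : av (fun j : JJ S p => av (fun y => ind (word s σ α j y ≠ y))) = (D1 + D2) / 2 := by
    simp only [av_prod, av_bool, word, if_true, Bool.false_eq_true, if_false, div_eq_mul_inv,
      av_mul_right, av_add, av_const]
    rfl
  rw [e1]
  have hL : (0 : ℝ) < (Nat.log 2 p + 1 : ℕ) := by positivity
  have hL1 : (1 : ℝ) ≤ (Nat.log 2 p + 1 : ℕ) := by exact_mod_cast Nat.le_add_left _ _
  set L : ℝ := ((Nat.log 2 p + 1 : ℕ) : ℝ) with hLL
  have e2 : 3 / (16 * L) * av (FF s e) ≤ D1 := by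
    have g1 : av (FF s e) = av (fun σ1 => av (fun σ2 => av (fun σ3 => av (fun σ4 => av (fun y =>
        ind (∃ j1, j1 ≤ k ∧ ∃ j, j ≤ k ∧
          ¬ OK0 e (s σ3) (s σ4) (pw e (s σ2) j (pw e (s σ1) j1 y)))))))) := by
      unfold FF
      rw [av_comm]
      refine av_congr fun σ1 => ?_
      rw [av_comm]
      refine av_congr fun σ2 => ?_
      rw [av_comm]
      refine av_congr fun σ3 => ?_
      rw [av_comm]
    rw [g1, hD1]
    simp only [← av_mul_left]
    refine av_mono fun σ1 => av_mono fun σ2 => av_mono fun σ3 => av_mono fun σ4 => ?_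
    have g2 : ∀ f : Fin (Nat.log 2 p + 1) → ZMod p → ZMod p → Fin n → ℝ,
        av (fun l => av (fun a => av (fun b => av (fun y => f l a b y)))) =
          av (fun y => av (fun l => av (fun a => av (fun b => f l a b y)))) := by
      intro f
      rw [av_comm (fun y l => av (fun a => av (fun b => f l a b y)))]
      refine av_congr fun l => ?_
      rw [av_comm (fun y a => av (fun b => f l a b y))]
      refine av_congr fun a => ?_
      rw [av_comm]
    rw [g2]
    refine av_mono fun y => ?_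
    by_cases hy : ∃ j1, j1 ≤ k ∧ ∃ j, j ≤ k ∧
          ¬ OK0 e (s σ3) (s σ4) (pw e (s σ2) j (pw e (s σ1) j1 y))
    · rw [ind_pos hy, mul_one]
      obtain ⟨ι, hι⟩ := fail_rel hy
      exact iso_move hp _ y ⟨Fintype.equivFin (Ix k) ι, by simpa using hι⟩
    · rw [ind_neg hy, mul_zero]
      exact av_nonneg fun _ => av_nonneg fun _ => av_ind_nonneg _
  have e3 : ∀ x, dh (α x) (ρ' (Multiplicative.ofAdd (s x))) ≤
      1 - (∑ y, ind (ρ (s x) (ι y) = ι (pw e (s x) k y))) / N +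
        av (fun y => ind (((α x)⁻¹ * pw e (s x) k) y ≠ y)) := by
    intro x
    rw [dh_eq hnN]
    have g1 : ∑ y, ind (ρ (s x) (ι y) = ι (pw e (s x) k y)) ≤
        ∑ y, ind (ρ' (Multiplicative.ofAdd (s x)) (Fin.castLE hnN y) = Fin.castLE hnN (α x y)) +
          ∑ y, ind (((α x)⁻¹ * pw e (s x) k) y ≠ y) := by
      rw [← sum_add_distrib]
      refine sum_le_sum fun y _ => ind_le2 fun g2 => ?_
      by_cases g3 : ((α x)⁻¹ * pw e (s x) k) y = y
      · left
        rw [Equiv.Perm.mul_apply, Equiv.Perm.inv_eq_iff_eq] at g3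
        rw [← hθ, ← hθ, ← g3, ← g2]
        simp [ρ']
      · exact Or.inr g3
    have g2 : (∑ y, ind (((α x)⁻¹ * pw e (s x) k) y ≠ y)) / N ≤
        av (fun y => ind (((α x)⁻¹ * pw e (s x) k) y ≠ y)) := by
      unfold av
      rw [Fintype.card_fin]
      exact div_le_div_of_nonneg_left (sum_nonneg fun _ _ => ind_nonneg _) hnR hnN'
    have g3 := div_le_div_of_nonneg_right g1 (hnR.le.trans hnN')
    rw [add_div] at g3
    linarith
  have e4 := av_mono e3
  rw [av_add, av_sub, av_const] at e4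
  simp only [div_eq_mul_inv _ (N : ℝ), av_mul_right] at e4
  have hNR : (0 : ℝ) < N := hnR.trans_le hnN'
  have hF0 : 0 ≤ ∑ y, FF s e y := sum_nonneg fun y _ => FF_nonneg y
  have e5 : 1 - av (fun x => ∑ y, ind (ρ (s x) (ι y) = ι (pw e (s x) k y))) * (N : ℝ)⁻¹ ≤
      10 ^ 10 * av (FF s e) := by
    have g1 : 1 - av (fun x => ∑ y, ind (ρ (s x) (ι y) = ι (pw e (s x) k y))) * (N : ℝ)⁻¹ =
        (N - av (fun x => ∑ y, ind (ρ (s x) (ι y) = ι (pw e (s x) k y)))) / N := by
      field_simp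
    rw [g1]
    refine (div_le_div_of_nonneg_right h3 hNR.le).trans ?_
    rw [mul_div_assoc, av, Fintype.card_fin]
    exact mul_le_mul_of_nonneg_left (div_le_div_of_nonneg_left hF0 hnR hnN') (by norm_num)
  have e6 : av (FF s e) ≤ 16 / 3 * L * D1 := by
    have := mul_le_mul_of_nonneg_left e2 (by positivity : 0 ≤ 16 / 3 * L)
    rw [← mul_assoc] at this
    have g1 : 16 / 3 * L * (3 / (16 * L)) = 1 := by field_simp
    rwa [g1, one_mul] at this
  have hD10 : 0 ≤ D1 := av_nonneg fun _ => av_nonneg fun _ => av_nonneg fun _ =>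
    av_nonneg fun _ => av_nonneg fun _ => av_nonneg fun _ => av_nonneg fun _ => av_ind_nonneg _
  have hD20 : 0 ≤ D2 := av_nonneg fun _ => av_ind_nonneg _
  have g1 := mul_nonneg hL.le hD10
  have g2 := mul_le_mul_of_nonneg_right hL1 hD20
  refine e4.trans ?_
  nlinarith

lemma subgroup_small {S : Type} [Fintype S] [Nonempty S] {s : S → V k}
    (hm : Mix s (1 / (1000 * (k + 1)))) (H : Subgroup (Multiplicative (V k))) (hH : H ≠ ⊤) :
    av (fun x => ind (Multiplicative.ofAdd (s x) ∈ H)) ≤ 501 / 1000 := by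
  have hk : (0 : ℝ) ≤ k := Nat.cast_nonneg _
  have h1 := expand hm (by positivity) (p := fun a => Multiplicative.ofAdd a ∈ H)
    (b := av (fun x => ind (Multiplicative.ofAdd (s x) ∈ H))) 0 H.one_mem
    (fun a ha => av_mono fun x => ind_mono fun hx => H.mul_mem ha hx)
  obtain ⟨c, hc⟩ : ∃ c : V k, Multiplicative.ofAdd c ∉ H := by
    by_contra h
    push Not at h
    exact hH ((Subgroup.eq_top_iff' H).2 fun x => h x.toAdd)
  have h2 : av (fun a : V k => ind (Multiplicative.ofAdd a ∈ H)) +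
      av (fun a : V k => ind (Multiplicative.ofAdd (a + c) ∈ H)) ≤ 1 := by
    rw [← av_add]
    refine av_le_of_le fun a => ?_
    by_cases ha : Multiplicative.ofAdd a ∈ H
    · have : Multiplicative.ofAdd (a + c) ∉ H := fun h =>
        hc ((H.mul_mem_cancel_left ha).1 h)
      rw [ind_neg this]; linarith [ind_le_one (Multiplicative.ofAdd a ∈ H)]
    · rw [ind_neg ha]; linarith [ind_le_one (Multiplicative.ofAdd (a + c) ∈ H)]
  rw [av_shift (fun a : V k => ind (Multiplicative.ofAdd a ∈ H))] at h2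
  have h3 : (1 : ℝ) / (1000 * (k + 1)) ≤ 1 / 1000 :=
    one_div_le_one_div_of_le (by norm_num) (by linarith)
  linarith

lemma IsStable.mono {S : Type} [Fintype S] {P : WPres S} {ρ ρ' : ℝ → ℝ} (h : IsStable P ρ)
    (h' : ∀ ε, 0 ≤ ε → ρ ε ≤ ρ' ε) : IsStable P ρ' := by
  intro n hn α
  obtain ⟨N, h1, β, h2, h3⟩ := h n hn α
  refine ⟨N, h1, β, h2, h3.trans (h' _ ?_)⟩
  refine sum_nonneg fun r hr => mul_nonneg (P.muR_nonneg r hr) ?_
  rw [dh_one (by omega)]
  exact av_ind_nonneg _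

lemma numerics (hk : 4 ≤ k) {g : ℝ} (hg : g = k * Real.log 2) :
    (k + 1 : ℝ) ≤ g ^ 2 ∧ 36 ≤ g ^ 4 ∧ 1 ≤ g ∧ 1 ≤ Real.log g := by
  have h1 := Real.log_two_gt_d9
  have h2 : (4 : ℝ) ≤ k := by exact_mod_cast hk
  have h3 : 0.6931 * k ≤ g := by rw [hg]; nlinarith
  have h4 : 2.7724 ≤ g := by linarith
  have h5 : 7 ≤ g ^ 2 := by nlinarith
  refine ⟨by nlinarith, by nlinarith, by linarith, ?_⟩
  rw [Real.le_log_iff_exp_le (by linarith)]
  linarith [Real.exp_one_lt_d9]

open Classical in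
theorem main : ∃ A : ℕ, 1 ≤ A ∧ ∀ k : ℕ, 4 ≤ k →
    ∃ (S : Type) (_ : Fintype S) (_ : DecidableEq S) (P : WPres S)
      (π : PresentedGroup (P.R : Set (FreeGroup S)) ≃* Multiplicative (Fin k → ZMod 2)),
      ∀ g : ℝ, g = Real.log (Nat.card (Multiplicative (Fin k → ZMod 2))) →
        (Fintype.card S : ℝ) ≤ A * g ^ A ∧ (P.R.card : ℝ) ≤ A * g ^ A ∧
        (∀ r ∈ P.R, (r.norm : ℝ) ≤ A * g ^ A) ∧
        (∀ s, P.muS s = 1 / Fintype.card S) ∧ (∀ r ∈ P.R, 0 < P.muR r) ∧
        (∀ H : Subgroup (Multiplicative (Fin k → ZMod 2)), H ≠ ⊤ →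
          ∑ s with π (PresentedGroup.of s) ∈ H, P.muS s ≤ 501 / 1000) ∧
        IsStable P (fun ε => A * Real.log g * ε) ∧
        IsStable P (fun ε => A * Real.log g ^ A * ε ^ (1 : ℝ)) := by
  obtain ⟨A, hA⟩ : ∃ A : ℕ, 10 ^ 40 ≤ A := ⟨_, le_rfl⟩
  refine ⟨A, le_trans (by norm_num) hA, fun k hk => ?_⟩
  obtain ⟨S, hS, hne, s, σ, hσ, hm, hcard⟩ := exists_biased k
  obtain ⟨p, hp, hp1, hp2⟩ := Nat.exists_prime_lt_and_le_two_mul (2 * Fintype.card (Ix k))
    (by have := (card_Ix k).1; omega)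
  have : Fact p.Prime := ⟨hp⟩
  obtain ⟨π, hπ⟩ := exists_iso hp1.le s σ hσ
    ((ofWords (word (p := p) s σ FreeGroup.of)).R : Set (FreeGroup S))
    (fun r => by simp [ofWords])
  refine ⟨S, hS, inferInstance, ofWords (word (p := p) s σ FreeGroup.of), π, fun g hg => ?_⟩
  have hg' : g = k * Real.log 2 := by
    rw [hg, Nat.card_eq_fintype_card, Fintype.card_multiplicative, Fintype.card_fun, ZMod.card,
      Fintype.card_fin, Nat.cast_pow, Real.log_pow]
    norm_num
  obtain ⟨n1, n2, n3, n4⟩ := numerics hk hg'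
  have hAR : (10 : ℝ) ^ 40 ≤ A := by exact_mod_cast hA
  have key : ∀ x : ℕ, x ≤ 10 ^ 40 * (k + 1) ^ 31 → (x : ℝ) ≤ A * g ^ A := by
    intro x hx
    have h1 : (x : ℝ) ≤ 10 ^ 40 * (k + 1) ^ 31 := by exact_mod_cast hx
    have h2 : ((k : ℝ) + 1) ^ 31 ≤ (g ^ 2) ^ 31 := pow_le_pow_left₀ (by positivity) n1 31
    have h3 : (g ^ 2) ^ 31 ≤ g ^ A := by
      rw [← pow_mul]
      exact pow_le_pow_right₀ n3 (le_trans (by norm_num) hA)
    exact h1.trans (mul_le_mul hAR (h2.trans h3) (by positivity) (by positivity))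
  have hp3 : p ≤ 36 * (k + 1) ^ 5 := by have := (card_Ix k).2; omega
  have hst : IsStable (ofWords (word (p := p) s σ FreeGroup.of))
      (fun ε => A * Real.log g * ε) := by
    refine (stable hp1.le s σ hσ hm).mono fun ε hε => mul_le_mul_of_nonneg_right ?_ hε
    have h1 : ((2 : ℝ)) ^ Nat.log 2 p ≤ g ^ 14 := by
      have g1 : 2 ^ Nat.log 2 p ≤ 36 * (k + 1) ^ 5 := (Nat.pow_log_le_self 2 hp.ne_zero).trans hp3
      have g2 : ((2 : ℝ)) ^ Nat.log 2 p ≤ 36 * (k + 1) ^ 5 := by exact_mod_cast g1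
      have g3 : ((k : ℝ) + 1) ^ 5 ≤ (g ^ 2) ^ 5 := pow_le_pow_left₀ (by positivity) n1 5
      calc _ ≤ _ := g2
        _ ≤ g ^ 4 * (g ^ 2) ^ 5 := mul_le_mul n2 g3 (by positivity) (by positivity)
        _ = _ := by ring
    have h2 := Real.log_le_log (by positivity) h1
    rw [Real.log_pow, Real.log_pow] at h2
    have h3 := Real.log_two_gt_d9
    have h4 : (0 : ℝ) ≤ Nat.log 2 p := Nat.cast_nonneg _
    push_cast at h2 ⊢
    have h5 : (Nat.log 2 p : ℝ) + 1 ≤ 22 * Real.log g := by nlinarith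
    nlinarith
  refine ⟨key _ (hcard.trans ?_), key _ ?_, fun r hr => key _ ?_, fun _ => rfl, fun r hr => ?_,
    fun H hH => ?_, hst, hst.mono fun ε hε => ?_⟩
  · exact Nat.mul_le_mul (by norm_num) (Nat.pow_le_pow_right (by omega) (by norm_num))
  · refine card_image_le.trans ?_
    simp only [card_univ, Fintype.card_prod, Fintype.card_fin, ZMod.card, Fintype.card_bool]
    have h1 : Nat.log 2 p + 1 ≤ 36 * (k + 1) ^ 5 :=
      (Nat.succ_le_of_lt (Nat.log_lt_self 2 hp.ne_zero)).trans hp3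
    calc _ ≤ (10 ^ 8 * (k + 1) ^ 4) * ((10 ^ 8 * (k + 1) ^ 4) * ((10 ^ 8 * (k + 1) ^ 4) *
        ((10 ^ 8 * (k + 1) ^ 4) * ((36 * (k + 1) ^ 5) * ((36 * (k + 1) ^ 5) *
          ((36 * (k + 1) ^ 5) * 2)))))) := by gcongr
      _ = (10 ^ 32 * 36 ^ 3 * 2) * (k + 1) ^ 31 := by ring
      _ ≤ _ := Nat.mul_le_mul_right _ (by norm_num)
  · obtain ⟨j, -, rfl⟩ := mem_image.1 hr
    exact (norm_word s σ j).trans
      (Nat.mul_le_mul (by norm_num) (Nat.pow_le_pow_right (by omega) (by norm_num)))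
  · obtain ⟨j, -, rfl⟩ := mem_image.1 hr
    refine div_pos ?_ card_pos'
    exact_mod_cast card_pos.2 ⟨j, by simp⟩
  · refine le_trans (le_of_eq ?_) (subgroup_small hm H hH)
    rw [filter_congr (q := fun x => Multiplicative.ofAdd (s x) ∈ H) (fun x _ => by rw [hπ])]
    simp only [ofWords, sum_const, nsmul_eq_mul, av]
    rw [sum_ind_eq_card]
    ring
  · rw [Real.rpow_one]
    refine mul_le_mul_of_nonneg_right (mul_le_mul_of_nonneg_left ?_ (by positivity)) hε
    exact le_self_pow₀ n4 (by omega)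

end Pool.Agent.H826Z.PS
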