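import Pool.Agent.H826Z.PS.Iso
import Pool.Agent.H826Z.PS.Bias
import Pool.Agent.H826Z.PS.Defs

namespace Pool.Agent.H826Z.PS

open Finset

variable {k : ℕ}

lemma pre_one {H : Type} [Monoid H] (f : ℕ → H) (n : ℕ) (h : ∀ m, m < n → f m = 1) :
    pre f n = 1 := by
  induction n with
  | zero => rfl
  | succ n ih =>
    change f n * pre f n = 1
    rw [ih (fun m hm => h m (by omega)), h n (by omega), one_mul]

lemma pre_single {H : Type} [Monoid H] (f : ℕ → H) (n m0 : ℕ) (h0 : m0 < n)
    (h : ∀ m, m < n → m ≠ m0 → f m = 1) : pre f n = f m0 := by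
  induction n with
  | zero => omega
  | succ n ih =>
    change f n * pre f n = f m0
    by_cases hn : n = m0
    · subst hn
      rw [pre_one f n (fun m hm => h m (by omega) (by omega)), mul_one]
    · rw [ih (by omega) (fun m hm => h m (by omega)), h n (by omega) hn, one_mul]

lemma isoW_single {H : Type} [Monoid H] {M p : ℕ} [Fact p.Prime] (hp : 2 * M ≤ p) (c : Fin M → H)
    (m0 : Fin M) : isoW c (1 : ZMod p) (-(m0.val : ZMod p)) 0 = c m0 := by
  unfold isoW
  rw [pre_single _ M m0 m0.2]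
  · simp
  · intro m hm hne
    rw [dif_pos hm, if_neg]
    intro h
    have h1 : ((1 : ZMod p) * m + -(m0.val : ZMod p)).val = 0 := by omega
    rw [ZMod.val_eq_zero, one_mul, add_neg_eq_zero] at h1
    have g1 := congrArg ZMod.val h1
    rw [ZMod.val_cast_of_lt (by omega), ZMod.val_cast_of_lt (by have := m0.2; omega)] at g1
    exact hne g1

lemma isoW_one {H : Type} [Monoid H] {M p : ℕ} (c : Fin M → H) (hc : ∀ m, c m = 1)
    (a b : ZMod p) (l : ℕ) : isoW c a b l = 1 := by
  unfold isoW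
  refine pre_one _ _ fun m hm => ?_
  rw [dif_pos hm]
  split_ifs
  · exact hc _
  · rfl

lemma rel_eq_one {G : Type} [CommGroup G] (e : Fin k → G) (he : ∀ i, e i * e i = 1)
    (a1 a2 a3 a4 : V k) (ι : Ix k) : rel e a1 a2 a3 a4 ι = 1 := by
  obtain ⟨j1, j2, A, B, o⟩ := ι
  cases o with
  | none =>
    simp only [rel, core]
    rw [mul_comm (atom e a3 a4 B), inv_mul_cancel, mul_one, inv_mul_cancel]
  | some i => simp [rel, core, he]

lemma pw_eps (a : V k) (j : ℕ) (hj : j ≤ k) :
    pw (fun i => Multiplicative.ofAdd (eps i)) a j = Multiplicative.ofAdd (trunc a j) := by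
  induction j with
  | zero => rw [trunc_zero, pw_zero]; rfl
  | succ j ih =>
    by_cases h0 : a ⟨j, hj⟩ = 0
    · have e1 := trunc_succ_zero a ⟨j, hj⟩ h0
      have e2 := pw_succ_zero (fun i => Multiplicative.ofAdd (eps i)) a ⟨j, hj⟩ h0
      simp only at e1 e2
      rw [e1, e2, ih (by omega)]
    · have e1 := trunc_succ_one a ⟨j, hj⟩ h0
      have e2 := pw_succ_one (fun i => Multiplicative.ofAdd (eps i)) a ⟨j, hj⟩ h0
      simp only at e1 e2
      rw [e1, e2, ih (by omega), ofAdd_add, mul_comm]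

lemma pw_add {H : Type} [Monoid H] (e : Fin k → H) (hc : ∀ i j, Commute (e i) (e j))
    (he : ∀ i, e i * e i = 1) (a b : V k) (j : ℕ) : pw e (a + b) j = pw e a j * pw e b j := by
  have h11 : (1 : ZMod 2) + 1 = 0 := by decide
  have h1 : ∀ a b : V k, ∀ i j, Commute (fac e a i) (fac e b j) := by
    intro a b i j
    unfold fac
    split_ifs <;> first | exact hc _ _ | simp
  have h2 : ∀ a b : V k, ∀ i j, Commute (fac e a i) (pw e b j) := by
    intro a b i j
    induction j with
    | zero => exact Commute.one_right _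
    | succ j ih => exact (h1 a b i j).mul_right ih
  have h3 : ∀ i, fac e (a + b) i = fac e a i * fac e b i := by
    intro i
    unfold fac
    by_cases h : i < k
    · simp only [dif_pos h, Pi.add_apply]
      rcases z2_cases (a ⟨i, h⟩) with g | g <;> rcases z2_cases (b ⟨i, h⟩) with g' | g' <;>
        simp [g, g', h11, he]
    · simp only [dif_neg h, mul_one]
  induction j with
  | zero => simp [pw_zero]
  | succ j ih =>
    change fac e (a + b) j * pw e (a + b) j = fac e a j * pw e a j * (fac e b j * pw e b j)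
    rw [ih, h3, mul_assoc, mul_assoc, ← mul_assoc (fac e b j), (h2 b a j j).eq, mul_assoc]

section norm
variable {S : Type} [DecidableEq S]

lemma norm_pre (f : ℕ → FreeGroup S) (B n : ℕ) (h : ∀ m, (f m).norm ≤ B) :
    (pre f n).norm ≤ n * B := by
  induction n with
  | zero => simp [pre]
  | succ n ih =>
    change (f n * pre f n).norm ≤ _
    have := FreeGroup.norm_mul_le (f n) (pre f n)
    have := h n
    rw [Nat.succ_mul]
    omega

lemma norm_pw (σ : Fin k → S) (a : V k) (j : ℕ) :
    (pw (fun i => FreeGroup.of (σ i)) a j).norm ≤ j := by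
  have := norm_pre (fac (fun i => FreeGroup.of (σ i)) a) 1 j (fun m => by
    unfold fac
    split_ifs <;> simp)
  rwa [mul_one] at this

lemma norm_atom (σ : Fin k → S) (a b : V k) (x : At k) :
    (atom (fun i => FreeGroup.of (σ i)) a b x).norm ≤ k + 1 := by
  rcases x with j | j | i
  · exact (norm_pw σ a j).trans j.2.le
  · exact (norm_pw σ b j).trans j.2.le
  · simp [atom]

lemma norm_rel (σ : Fin k → S) (a1 a2 a3 a4 : V k) (ι : Ix k) :
    (rel (fun i => FreeGroup.of (σ i)) a1 a2 a3 a4 ι).norm ≤ 8 * (k + 1) := by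
  obtain ⟨j1, j2, A, B, o⟩ := ι
  have h1 := norm_pw σ a1 j1
  have h2 := norm_pw σ a2 j2
  have h3 := norm_atom σ a3 a4 A
  have h4 := norm_atom σ a3 a4 B
  have h5 := j1.2
  have h6 := j2.2
  unfold rel
  simp only
  set P1 := pw (fun i => FreeGroup.of (σ i)) a1 j1
  set P2 := pw (fun i => FreeGroup.of (σ i)) a2 j2
  set A' := atom (fun i => FreeGroup.of (σ i)) a3 a4 A
  set B' := atom (fun i => FreeGroup.of (σ i)) a3 a4 B
  have h7 : (core (fun i => FreeGroup.of (σ i)) A' B' o).norm ≤ 4 * (k + 1) := by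
    cases o with
    | none =>
      have g1 := FreeGroup.norm_mul_le (B' * A')⁻¹ (A' * B')
      have g2 := FreeGroup.norm_mul_le B' A'
      have g3 := FreeGroup.norm_mul_le A' B'
      rw [FreeGroup.norm_inv_eq] at g1
      simp only [core]
      omega
    | some i =>
      have g1 := FreeGroup.norm_mul_le A'⁻¹ (FreeGroup.of (σ i) * FreeGroup.of (σ i) * A')
      have g2 := FreeGroup.norm_mul_le (FreeGroup.of (σ i) * FreeGroup.of (σ i)) A'
      have g3 := FreeGroup.norm_mul_le (FreeGroup.of (σ i)) (FreeGroup.of (σ i))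
      rw [FreeGroup.norm_inv_eq] at g1
      rw [FreeGroup.norm_of] at g3
      simp only [core]
      omega
  set C := core (fun i => FreeGroup.of (σ i)) A' B' o
  have g1 := FreeGroup.norm_mul_le ((P2 * P1)⁻¹ * C) (P2 * P1)
  have g2 := FreeGroup.norm_mul_le (P2 * P1)⁻¹ C
  have g3 := FreeGroup.norm_mul_le P2 P1
  rw [FreeGroup.norm_inv_eq] at g2
  omega

lemma norm_isoW {M p : ℕ} (c : Fin M → FreeGroup S) (B : ℕ) (h : ∀ m, (c m).norm ≤ B)
    (a b : ZMod p) (l : ℕ) : (isoW c a b l).norm ≤ M * B := by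
  refine norm_pre _ B M fun m => ?_
  split_ifs
  · exact h _
  · simp
  · simp

end norm

lemma dh_eq {n N : ℕ} (h : n ≤ N) (σ : Equiv.Perm (Fin n)) (τ : Equiv.Perm (Fin N)) :
    dh σ τ = 1 - (∑ i, ind (τ (Fin.castLE h i) = Fin.castLE h (σ i))) / N := by
  unfold dh
  rw [max_eq_right h, sum_ind_eq_card]
  congr 3
  symm
  refine card_bij (fun i _ => (i, Fin.castLE h i)) (fun i hi => ?_)
    (fun i _ j _ hij => congrArg Prod.fst hij) (fun x hx => ?_)
  · simp only [mem_filter, mem_univ, true_and] at hi ⊢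
    exact ⟨rfl, by rw [hi]; rfl⟩
  · simp only [mem_filter, mem_univ, true_and] at hx
    have h1 : Fin.castLE h x.1 = x.2 := Fin.ext hx.1
    refine ⟨x.1, ?_, by rw [h1]⟩
    simp only [mem_filter, mem_univ, true_and]
    rw [h1]
    exact Fin.ext hx.2.symm

lemma dh_one {n : ℕ} (hn : 0 < n) (τ : Equiv.Perm (Fin n)) :
    dh τ (1 : Equiv.Perm (Fin n)) = av (fun y => ind (τ y ≠ y)) := by
  have : Nonempty (Fin n) := ⟨⟨0, hn⟩⟩
  rw [dh_eq le_rfl, av_ind_not]
  unfold av
  rw [Fintype.card_fin]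
  congr 2
  exact sum_congr rfl fun i _ => ind_congr (by simp [eq_comm])

lemma card_Ix (k : ℕ) : 1 ≤ Fintype.card (Ix k) ∧ Fintype.card (Ix k) ≤ 9 * (k + 1) ^ 5 := by
  simp only [Fintype.card_prod, Fintype.card_sum, Fintype.card_fin, Fintype.card_option]
  refine ⟨Nat.succ_le_of_lt (by positivity), ?_⟩
  calc _ ≤ (k + 1) * ((k + 1) * ((3 * (k + 1)) * ((3 * (k + 1)) * (k + 1)))) := by
        gcongr <;> omega
    _ = _ := by ring

/-- index set of the relations -/
abbrev JJ (S : Type) (p : ℕ) : Type :=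
  S × S × S × S × Fin (Nat.log 2 p + 1) × ZMod p × ZMod p × Bool

/-- the relations -/
noncomputable def word {S H : Type} [Group H] {p : ℕ} (s : S → V k) (σ : Fin k → S) (x : S → H)
    (j : JJ S p) : H :=
  if j.2.2.2.2.2.2.2 then
    isoW (fun m => rel (fun i => x (σ i)) (s j.1) (s j.2.1) (s j.2.2.1) (s j.2.2.2.1)
      ((Fintype.equivFin (Ix k)).symm m)) j.2.2.2.2.2.1 j.2.2.2.2.2.2.1 j.2.2.2.2.1
  else (x j.1)⁻¹ * pw (fun i => x (σ i)) (s j.1) k

lemma map_word {S H H' : Type} [Group H] [Group H'] {p : ℕ} (φ : H →* H') (s : S → V k)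
    (σ : Fin k → S) (x : S → H) (j : JJ S p) :
    φ (word s σ x j) = word s σ (fun y => φ (x y)) j := by
  unfold word
  split_ifs
  · simp only [map_isoW, map_rel]
  · simp only [map_mul, map_inv, map_pw]

lemma word_eq_one {S : Type} {p : ℕ} (s : S → V k) (σ : Fin k → S) (hσ : ∀ i, s (σ i) = eps i)
    (j : JJ S p) : word s σ (fun y => Multiplicative.ofAdd (s y)) j = 1 := by
  unfold word
  simp only [hσ]
  split_ifs
  · exact isoW_one _ (fun m => rel_eq_one _
      (fun i => by rw [← ofAdd_add, V_add_self]; rfl) _ _ _ _ _) _ _ _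
  · rw [pw_eps _ _ le_rfl, trunc_top, inv_mul_cancel]

lemma norm_word {S : Type} [DecidableEq S] {p : ℕ} (s : S → V k) (σ : Fin k → S) (j : JJ S p) :
    (word s σ FreeGroup.of j).norm ≤ 72 * (k + 1) ^ 6 := by
  unfold word
  split_ifs
  · refine (norm_isoW _ (8 * (k + 1)) (fun m => norm_rel σ _ _ _ _ _) _ _ _).trans ?_
    calc _ ≤ (9 * (k + 1) ^ 5) * (8 * (k + 1)) := Nat.mul_le_mul_right _ (card_Ix k).2
      _ = _ := by ring
  · have g1 := FreeGroup.norm_mul_le (FreeGroup.of j.1)⁻¹
      (pw (fun i => FreeGroup.of (σ i)) (s j.1) k)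
    rw [FreeGroup.norm_inv_eq, FreeGroup.norm_of] at g1
    have g2 := norm_pw σ (s j.1) k
    have g3 : k + 1 ≤ (k + 1) ^ 6 := Nat.le_self_pow (by norm_num) _
    omega

lemma exists_iso {S : Type} [Nonempty S] {p : ℕ} [Fact p.Prime]
    (hp : 2 * Fintype.card (Ix k) ≤ p) (s : S → V k) (σ : Fin k → S) (hσ : ∀ i, s (σ i) = eps i)
    (R : Set (FreeGroup S)) (hR : ∀ r, r ∈ R ↔ ∃ j : JJ S p, word s σ FreeGroup.of j = r) :
    ∃ π : PresentedGroup R ≃* Multiplicative (V k),
      ∀ x, π (PresentedGroup.of x) = Multiplicative.ofAdd (s x) := by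
  have h1 : ∀ r ∈ R, FreeGroup.lift (fun y => Multiplicative.ofAdd (s y)) r = 1 := by
    intro r hr
    obtain ⟨j, rfl⟩ := (hR r).1 hr
    rw [map_word]
    simp only [FreeGroup.lift_apply_of]
    exact word_eq_one s σ hσ j
  have h2 : ∀ j : JJ S p, word s σ (PresentedGroup.of : S → PresentedGroup R) j = 1 := by
    intro j
    have := map_word (PresentedGroup.mk R) s σ FreeGroup.of j
    rw [PresentedGroup.one_of_mem ((hR _).2 ⟨j, rfl⟩)] at this
    exact this.symm
  obtain ⟨x0⟩ := ‹Nonempty S›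
  set e : Fin k → PresentedGroup R := fun i => PresentedGroup.of (σ i) with he
  have h3 : ∀ ι, rel e (s x0) (s x0) (s x0) (s x0) ι = 1 := by
    intro ι
    have := h2 (x0, x0, x0, x0, 0, 1, -((Fintype.equivFin (Ix k) ι).val : ZMod p), true)
    simp only [word, if_true, Fin.val_zero] at this
    rw [isoW_single hp] at this
    simpa using this
  have hc : ∀ i j, Commute (e i) (e j) := by
    intro i j
    have := h3 (0, 0, Sum.inr (Sum.inr i), Sum.inr (Sum.inr j), none)
    simp only [rel, core, atom, Fin.val_zero, pw_zero, mul_one, inv_one, one_mul] at this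
    exact (inv_mul_eq_one.1 this).symm
  have hs : ∀ i, e i * e i = 1 := by
    intro i
    have := h3 (0, 0, Sum.inl 0, Sum.inl 0, some i)
    simpa only [rel, core, atom, Fin.val_zero, pw_zero, mul_one, inv_one, one_mul] using this
  let ψ : Multiplicative (V k) →* PresentedGroup R :=
    MonoidHom.mk' (fun a => pw e a.toAdd k) (fun a b => pw_add e hc hs _ _ k)
  refine ⟨MonoidHom.toMulEquiv (PresentedGroup.toGroup h1) ψ ?_ ?_, fun x => ?_⟩
  · ext x
    have := h2 (x, x0, x0, x0, 0, 0, 0, false)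
    simp only [word, Bool.false_eq_true, if_false] at this
    simp only [MonoidHom.comp_apply, PresentedGroup.toGroup.of, MonoidHom.id_apply]
    exact (inv_mul_eq_one.1 this).symm
  · refine MonoidHom.ext fun a => ?_
    simp only [MonoidHom.comp_apply, MonoidHom.id_apply]
    change PresentedGroup.toGroup h1 (pw e a.toAdd k) = a
    rw [map_pw]
    simp only [he, PresentedGroup.toGroup.of, hσ]
    rw [pw_eps _ _ le_rfl, trunc_top]
    rfl
  · exact PresentedGroup.toGroup.of h1

end Pool.Agent.H826Z.PS
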