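import Pool.Agent.H826Z.PS.Chart

namespace Pool.Agent.H826Z.PS

open Finset

/-- ordered product `f (n-1) * ... * f 0` -/
def pre {H : Type} [Monoid H] (f : ℕ → H) : ℕ → H
  | 0 => 1
  | n + 1 => f n * pre f n

/-- the factor `e_i ^ (a_i)` -/
def fac {k : ℕ} {H : Type} [Monoid H] (e : Fin k → H) (a : V k) (i : ℕ) : H :=
  if h : i < k then (if a ⟨i, h⟩ = 0 then 1 else e ⟨i, h⟩) else 1

/-- prefix of the canonical word -/
def pw {k : ℕ} {H : Type} [Monoid H] (e : Fin k → H) (a : V k) (j : ℕ) : H := pre (fac e a) j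

/-- truncation -/
def trunc {k : ℕ} (a : V k) (j : ℕ) : V k := fun i => if i.val < j then a i else 0

/-- basis vector -/
def eps {k : ℕ} (i : Fin k) : V k := Pi.single i 1

variable {k : ℕ}

lemma trunc_zero (a : V k) : trunc a 0 = 0 := by
  funext i; simp [trunc]

lemma trunc_top (a : V k) : trunc a k = a := by
  funext i; simp [trunc]

lemma trunc_succ_zero (a : V k) (j : Fin k) (h : a j = 0) : trunc a (j + 1) = trunc a j := by
  funext i
  simp only [trunc]
  by_cases hi : i = j
  · subst hi; simp [h]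
  · have : i.val ≠ j.val := fun h => hi (Fin.ext h)
    have : i.val < j.val + 1 ↔ i.val < j.val := by omega
    simp only [this]

lemma trunc_succ_one (a : V k) (j : Fin k) (h : a j ≠ 0) :
    trunc a (j + 1) = trunc a j + eps j := by
  funext i
  simp only [trunc, eps, Pi.add_apply]
  by_cases hi : i = j
  · subst hi; simp [(z2_cases (a i)).resolve_left h]
  · have : i.val ≠ j.val := fun h => hi (Fin.ext h)
    have : i.val < j.val + 1 ↔ i.val < j.val := by omega
    simp only [this, Pi.single_eq_of_ne hi, add_zero]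

lemma pw_zero {H : Type} [Monoid H] (e : Fin k → H) (a : V k) : pw e a 0 = 1 := rfl

lemma pw_succ_zero {H : Type} [Monoid H] (e : Fin k → H) (a : V k) (j : Fin k) (h : a j = 0) :
    pw e a (j + 1) = pw e a j := by
  simp [pw, pre, fac, h]

lemma pw_succ_one {H : Type} [Monoid H] (e : Fin k → H) (a : V k) (j : Fin k) (h : a j ≠ 0) :
    pw e a (j + 1) = e j * pw e a j := by
  simp [pw, pre, fac, h]

variable {S : Type} [Fintype S] {X : Type}

/-- the permutations of the canonical words -/
def uu (s : S → V k) (e : Fin k → Equiv.Perm X) : S → Equiv.Perm X := fun σ => pw e (s σ) k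

/-- the basis step `i` at `a` is respected -/
def egood (e : Fin k → Equiv.Perm X) (ω : V k → Option X) (a : V k) (i : Fin k) : Prop :=
  ∃ y, ω a = some y ∧ ω (a + eps i) = some (e i y)

/-- nice charts -/
def Nice (s : S → V k) (e : Fin k → Equiv.Perm X) (ω : V k → Option X) : Prop :=
  IsMaxC s (uu s e) ω ∧ av (dev s (uu s e) ω) ≤ 1 / 320 ∧
    ∀ i, av (fun a => ind (¬ egood e ω a i)) ≤ 1 / 80

/-- local test failure -/
noncomputable def LL (s : S → V k) (e : Fin k → Equiv.Perm X) (z : X) : ℝ :=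
  av (fun σ => av (fun τ => ind (¬ (uu s e σ (uu s e τ z) = uu s e τ (uu s e σ z) ∧
    ∀ i, e i (uu s e τ z) = uu s e τ (e i z)))))

/-- path test failure -/
noncomputable def T2 (s : S → V k) (e : Fin k → Equiv.Perm X) (y : X) : ℝ :=
  av (fun σ => ind (∃ j, j ≤ k ∧ 1 / 80 < LL s e (pw e (s σ) j y)))

/-- exceptional positions -/
def Exc (s : S → V k) (e : Fin k → Equiv.Perm X) (ω : V k → Option X) (b : V k) (i : Fin k) :
    Prop :=
  1 / 160 < MM s (dev s (uu s e) ω) b ∨ 1 / 40 < MM s (fun a => ind (¬ egood e ω a i)) b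

/-- chance that a path meets an exceptional position -/
noncomputable def xx (s : S → V k) (e : Fin k → Equiv.Perm X) (ω : V k → Option X) (a : V k) : ℝ :=
  av (fun σ => ind (∃ j : Fin k, Exc s e ω (a + trunc (s σ) j) j))

/-- extension by zero -/
def lift (T : X → ℝ) : Option X → ℝ
  | none => 0
  | some y => T y

variable {s : S → V k} {e : Fin k → Equiv.Perm X} {lam : ℝ}

lemma egood_shift (c : V k) (ω : V k → Option X) (a : V k) (i : Fin k) :
    egood e (shift c ω) a i ↔ egood e ω (a + c) i := by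
  unfold egood shift
  rw [add_right_comm a c]

lemma Nice.shift {ω : V k → Option X} (h : Nice s e ω) (c : V k) : Nice s e (shift c ω) := by
  refine ⟨h.1.shift c, ?_, fun i => ?_⟩
  · rw [av_congr (dev_shift c ω), av_shift]; exact h.2.1
  · rw [av_congr (fun a => ind_congr (not_congr (egood_shift c ω a i))),
      av_shift (fun a => ind (¬ egood e ω a i))]
    exact h.2.2 i

lemma lemC [Nonempty S] {ω : V k → Option X} (h : IsMaxC s (uu s e) ω) {b : V k} {z : X}
    (hb : ω b = some z) (hL : LL s e z ≤ 1 / 80) {i : Fin k} (hE : ¬ Exc s e ω b i) :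
    ω (b + eps i) = some (e i z) := by
  unfold Exc at hE
  push Not at hE
  refine fit h ?_
  have h1 := caseA h.1 hb
  have h2 : av (fun σ => av (fun τ => ind (¬ uu s e σ (uu s e τ z) = uu s e τ (uu s e σ z)))) ≤
      LL s e z := av_mono fun σ => av_mono fun τ => ind_mono fun h1 h2 => h1 h2.1
  have h3 : av (fun τ => ind (¬ e i (uu s e τ z) = uu s e τ (e i z))) ≤ LL s e z :=
    le_av_of_le fun σ => av_mono fun τ => ind_mono fun h1 h2 => h1 (h2.2 i)
  have h4 : av (fun τ => ind (¬ ω (b + eps i + s τ) = some (uu s e τ (e i z)))) ≤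
      dev s (uu s e) ω b + MM s (fun a => ind (¬ egood e ω a i)) b +
        av (fun τ => ind (¬ e i (uu s e τ z) = uu s e τ (e i z))) := by
    unfold dev MM
    rw [← av_add, ← av_add]
    refine av_mono fun τ => ind_le3 fun g0 => ?_
    by_contra hc
    push Not at hc
    obtain ⟨⟨y1, g1, g2⟩, ⟨y2, g3, g4⟩, g5⟩ := hc
    rw [hb] at g1
    cases g1
    rw [g2] at g3
    cases g3
    rw [add_right_comm, g5] at g4
    exact g0 g4
  linarith [hE.1, hE.2]

lemma lemD [Nonempty S] {ω : V k → Option X} (h : IsMaxC s (uu s e) ω) {a : V k} {y : X}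
    (ha : ω a = some y) : dev s (uu s e) ω a ≤ T2 s e y + xx s e ω a := by
  unfold dev T2 xx
  rw [← av_add]
  refine av_mono fun σ => ind_le2 fun g0 => ?_
  by_contra hc
  push Not at hc
  obtain ⟨g1, g2⟩ := hc
  have key : ∀ j, j ≤ k → ω (a + trunc (s σ) j) = some (pw e (s σ) j y) := by
    intro j
    induction j with
    | zero => intro _; rw [trunc_zero, add_zero, pw_zero]; exact ha
    | succ j ih =>
      intro hj
      have ih' := ih (by omega)
      by_cases h0 : s σ ⟨j, hj⟩ = 0
      · have e1 := trunc_succ_zero (s σ) ⟨j, hj⟩ h0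
        have e2 := pw_succ_zero e (s σ) ⟨j, hj⟩ h0
        simp only at e1 e2
        rw [e1, e2]; exact ih'
      · have e1 := trunc_succ_one (s σ) ⟨j, hj⟩ h0
        have e2 := pw_succ_one e (s σ) ⟨j, hj⟩ h0
        simp only at e1 e2
        rw [e1, e2, ← add_assoc]
        exact lemC h ih' (g1 j (by omega)) (g2 ⟨j, hj⟩)
  have := key k le_rfl
  rw [trunc_top] at this
  exact g0 ⟨y, ha, this⟩

lemma T2_nonneg (y : X) : 0 ≤ T2 s e y := av_ind_nonneg _

lemma xx_nonneg (ω : V k → Option X) (a : V k) : 0 ≤ xx s e ω a := av_ind_nonneg _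

lemma lift_nonneg {T : X → ℝ} (h : ∀ y, 0 ≤ T y) (o : Option X) : 0 ≤ lift T o := by
  cases o with
  | none => exact le_rfl
  | some y => exact h y

lemma lift_le_one {T : X → ℝ} (h : ∀ y, T y ≤ 1) (o : Option X) : lift T o ≤ 1 := by
  cases o with
  | none => exact zero_le_one
  | some y => exact h y

lemma exc_le [Nonempty S] (hm : Mix s lam) {ω : V k → Option X} (h : Nice s e ω) (i : Fin k) :
    av (fun b => ind (Exc s e ω b i)) ≤ lam ^ 2 * (102400 * av (dev s (uu s e) ω) +
      6400 * av (fun a => ind (¬ egood e ω a i))) := by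
  have h1 := cheb hm (φ := dev s (uu s e) ω) (dev_nonneg ω) (dev_le_one ω)
    (p := fun b => 1 / 160 < MM s (dev s (uu s e) ω) b) (g := 1 / 320) (by norm_num)
    (fun a ha => le_trans (by linarith [h.2.1]) (le_abs_self _))
  have h2 := cheb hm (φ := fun a => ind (¬ egood e ω a i)) (fun _ => ind_nonneg _)
    (fun _ => ind_le_one _)
    (p := fun b => 1 / 40 < MM s (fun a => ind (¬ egood e ω a i)) b) (g := 1 / 80) (by norm_num)
    (fun a ha => le_trans (by linarith [h.2.2 i]) (le_abs_self _))
  have h3 : av (fun b => ind (Exc s e ω b i)) ≤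
      av (fun b => ind (1 / 160 < MM s (dev s (uu s e) ω) b)) +
        av (fun b => ind (1 / 40 < MM s (fun a => ind (¬ egood e ω a i)) b)) := by
    rw [← av_add]
    exact av_mono fun b => ind_le2 id
  nlinarith

/-- self-improvement -/
lemma self_improve [Nonempty S] (hm : Mix s lam) (hl : 0 ≤ lam) (hl1 : lam ≤ 1 / 1000)
    (hD : k * lam ^ 2 ≤ 1 / 10 ^ 6) {ω : V k → Option X} (h : Nice s e ω) {T : X → ℝ}
    (hT : ∀ y, T2 s e y ≤ T y) :
    av (dev s (uu s e) ω) ≤ 7 * av (fun a => lift T (ω a)) ∧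
    (∀ i, av (fun a => ind (¬ egood e ω a i)) ≤ 23 * av (fun a => lift T (ω a))) ∧
    av (xx s e ω) ≤ 10 ^ 6 * (k * lam ^ 2) * av (fun a => lift T (ω a)) := by
  have hT0 : ∀ y, 0 ≤ T y := fun y => (T2_nonneg y).trans (hT y)
  set δ := av (dev s (uu s e) ω) with hδ
  set Tb := av (fun a => lift T (ω a)) with hTb
  have hTb0 : 0 ≤ Tb := av_nonneg fun a => lift_nonneg hT0 _
  have hδ0 : 0 ≤ δ := av_nonneg (dev_nonneg ω)
  have hl2 : lam ^ 2 ≤ 1 / 10 ^ 6 := by nlinarith
  have hβ : ∀ i, av (fun a => ind (¬ egood e ω a i)) ≤ 3 * δ + 2 * Tb := by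
    intro i
    have h1 := exc_le hm h i
    have h2 := none_le (s := s) (u := uu s e) ω
    have h3 : av (fun a => ind (¬ egood e ω a i)) ≤ av (fun a => ind (ω a = none)) + Tb +
        av (fun b => ind (Exc s e ω b i)) := by
      rw [hTb, ← av_add, ← av_add]
      refine av_mono fun a => ?_
      have n1 := ind_nonneg (ω a = none)
      have n2 := ind_nonneg (Exc s e ω a i)
      have n3 := lift_nonneg hT0 (ω a)
      refine ind_le (by linarith) fun g0 => ?_
      cases g1 : ω a with
      | none => rw [ind_pos rfl]; rw [g1] at n3; linarith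
      | some z =>
        rw [g1] at n1 n3
        by_cases g2 : Exc s e ω a i
        · rw [ind_pos g2]; linarith
        · have g3 : 1 / 80 < LL s e z := by
            by_contra g4
            exact g0 ⟨z, g1, lemC h.1 g1 (not_lt.1 g4) g2⟩
          have g4 : 1 ≤ T2 s e z :=
            le_av_of_le fun σ => (ind_pos ⟨0, Nat.zero_le _, g3⟩).ge
          have g5 : lift T (some z) = T z := rfl
          linarith [hT z]
    have h4 := av_ind_nonneg (fun a => ¬ egood e ω a i)
    have h5 := mul_le_mul_of_nonneg_right hl2 hδ0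
    have h6 := mul_le_mul_of_nonneg_right hl2 h4
    nlinarith
  have hx : av (xx s e ω) ≤ (k * lam ^ 2) * (121600 * δ + 12800 * Tb) := by
    have h1 : av (xx s e ω) ≤
        av (fun a => av (fun σ => ∑ j : Fin k, ind (Exc s e ω (a + trunc (s σ) j) j))) :=
      av_mono fun a => av_mono fun σ => ind_exists_le _
    rw [av_comm] at h1
    refine h1.trans (av_le_of_le fun σ => ?_)
    rw [av_sum]
    have h2 : ∀ j : Fin k, av (fun a => ind (Exc s e ω (a + trunc (s σ) j) j)) ≤
        lam ^ 2 * (121600 * δ + 12800 * Tb) := by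
      intro j
      rw [av_shift (fun a => ind (Exc s e ω a j))]
      refine (exc_le hm h j).trans (mul_le_mul_of_nonneg_left ?_ (sq_nonneg _))
      linarith [hβ j]
    refine (sum_le_sum fun j _ => h2 j).trans ?_
    simp only [sum_const, card_univ, Fintype.card_fin, nsmul_eq_mul]
    exact le_of_eq (by ring)
  have hd : δ ≤ 3 * (Tb + av (xx s e ω)) := by
    refine (dev_split hm hl hl1 h.2.1).trans (mul_le_mul_of_nonneg_left ?_ (by norm_num))
    rw [hTb, ← av_add]
    refine av_mono fun a => ?_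
    cases g1 : ω a with
    | none =>
      rw [ind_neg (not_not.2 rfl), zero_mul]
      exact add_nonneg le_rfl (xx_nonneg ω a)
    | some z =>
      rw [ind_pos (by simp), one_mul]
      have g5 : lift T (some z) = T z := rfl
      linarith [hT z, lemD h.1 g1]
  have hD0 : 0 ≤ k * lam ^ 2 := by positivity
  set D := k * lam ^ 2 with hDD
  have h5 := mul_le_mul_of_nonneg_right hD hδ0
  have h6 := mul_le_mul_of_nonneg_right hD hTb0
  have h7 : δ ≤ 7 * Tb := by nlinarith
  refine ⟨h7, fun i => by linarith [hβ i], hx.trans ?_⟩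
  have h8 := mul_le_mul_of_nonneg_left h7 hD0
  have h9 := mul_nonneg hD0 hTb0
  nlinarith

end Pool.Agent.H826Z.PS
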