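import Pool.Agent.H826Z.PS.Av

namespace Pool.Agent.H826Z.PS

open Finset

/-- the group `F_2^k` -/
abbrev V (k : ℕ) : Type := Fin k → ZMod 2

lemma z2_cases (z : ZMod 2) : z = 0 ∨ z = 1 := by
  revert z; decide

lemma V_add_self {k : ℕ} (v : V k) : v + v = 0 := by
  funext i
  show v i + v i = 0
  rcases z2_cases (v i) with h | h <;> rw [h] <;> decide

variable {k : ℕ} {S : Type} [Fintype S]

/-- Markov operator of the Cayley graph -/
noncomputable def MM (s : S → V k) (φ : V k → ℝ) (a : V k) : ℝ := av (fun σ => φ (a + s σ))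

/-- spectral gap -/
def Mix (s : S → V k) (lam : ℝ) : Prop :=
  ∀ φ : V k → ℝ, av (fun a => (MM s φ a - av φ) ^ 2) ≤ lam ^ 2 * av (fun a => φ a ^ 2)

lemma av_shift (φ : V k → ℝ) (c : V k) : av (fun a => φ (a + c)) = av φ :=
  av_equiv (Equiv.addRight c) φ

lemma av_MM [Nonempty S] (s : S → V k) (φ : V k → ℝ) : av (MM s φ) = av φ := by
  unfold MM
  rw [av_comm]
  simp only [av_shift]
  exact av_const _

lemma MM_symm (s : S → V k) (φ ψ : V k → ℝ) :
    av (fun a => ψ a * MM s φ a) = av (fun a => φ a * MM s ψ a) := by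
  unfold MM
  simp only [← av_mul_left]
  rw [av_comm, av_comm (fun a σ => φ a * ψ (a + s σ))]
  refine av_congr fun σ => ?_
  rw [← av_shift _ (s σ)]
  refine av_congr fun a => ?_
  rw [add_assoc, V_add_self, add_zero, mul_comm]

lemma MM_nonneg (s : S → V k) {φ : V k → ℝ} (h : ∀ a, 0 ≤ φ a) (a : V k) : 0 ≤ MM s φ a :=
  av_nonneg fun _ => h _

variable {s : S → V k} {lam : ℝ}

lemma cheb (hm : Mix s lam) {φ : V k → ℝ} (h0 : ∀ a, 0 ≤ φ a) (h1 : ∀ a, φ a ≤ 1)
    {p : V k → Prop} {g : ℝ} (hg : 0 ≤ g) (hp : ∀ a, p a → g ≤ |MM s φ a - av φ|) :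
    g ^ 2 * av (fun a => ind (p a)) ≤ lam ^ 2 * av φ := by
  have h2 : g ^ 2 * av (fun a => ind (p a)) ≤ av (fun a => (MM s φ a - av φ) ^ 2) := by
    refine markov (fun a => sq_nonneg _) (fun a ha => ?_)
    rw [← sq_abs (MM s φ a - av φ)]
    exact pow_le_pow_left₀ hg (hp a ha) 2
  have h3 : av (fun a => φ a ^ 2) ≤ av φ := av_mono fun a => by nlinarith [h0 a, h1 a]
  exact h2.trans ((hm φ).trans (mul_le_mul_of_nonneg_left h3 (sq_nonneg _)))

lemma quad (hm : Mix s lam) (hl : 0 ≤ lam) (φ : V k → ℝ) :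
    |av (fun a => φ a * (MM s φ a - av φ))| ≤ lam * av (fun a => φ a ^ 2) := by
  have h1 := av_cs φ (fun a => MM s φ a - av φ)
  have h2 := hm φ
  have h3 : 0 ≤ av (fun a => φ a ^ 2) := av_nonneg fun a => sq_nonneg _
  refine abs_le_of_sq_le_sq ?_ (mul_nonneg hl h3)
  calc _ ≤ _ := h1
    _ ≤ av (fun a => φ a ^ 2) * (lam ^ 2 * av (fun a => φ a ^ 2)) :=
      mul_le_mul_of_nonneg_left h2 h3
    _ = _ := by ring

lemma quad_ind (hm : Mix s lam) (hl : 0 ≤ lam) (p : V k → Prop) :
    av (fun a => ind (p a) * MM s (fun b => ind (p b)) a) ≤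
      av (fun a => ind (p a)) ^ 2 + lam * av (fun a => ind (p a)) := by
  have h := (abs_le.1 (quad hm hl (fun a => ind (p a)))).2
  simp only [ind_sq, mul_sub] at h
  rw [av_sub, av_mul_right] at h
  nlinarith

lemma expand (hm : Mix s lam) (hl : 0 ≤ lam) {p : V k → Prop} {b : ℝ} (a0 : V k) (h0 : p a0)
    (hp : ∀ a, p a → b ≤ MM s (fun c => ind (p c)) a) : b - lam ≤ av (fun a => ind (p a)) := by
  have h1 := quad_ind hm hl p
  have h2 : b * av (fun a => ind (p a)) ≤ av (fun a => ind (p a) * MM s (fun b => ind (p b)) a) := by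
    refine markov (fun a => mul_nonneg (ind_nonneg _) (MM_nonneg s (fun _ => ind_nonneg _) a))
      (fun a ha => ?_)
    rw [ind_pos ha, one_mul]; exact hp a ha
  have h3 := av_ind_pos (p := p) a0 h0
  by_contra hc
  push Not at hc
  nlinarith

/-- pruning -/
lemma prune (hm : Mix s lam) (hl : 0 ≤ lam) (b : V k → ℝ) (hb : ∀ a, 0 ≤ b a) (c : ℝ) :
    ∃ W : V k → Prop, (c - lam / 2) * av (fun a => ind (W a)) ≤ av b ∧
      ∀ v, ¬ W v → b v + MM s (fun a => ind (W a)) v ≤ av (fun a => ind (W a)) + lam / 2 + c := by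
  classical
  let q : (V k → ℝ) → ℝ := fun φ => av (fun a => φ a * (MM s φ a - av φ))
  let Ψ : (V k → Prop) → ℝ := fun W => av (fun a => ind (W a) * b a) +
    q (fun a => ind (W a)) / 2 - c * av (fun a => ind (W a))
  obtain ⟨W, hW⟩ := Finite.exists_max Ψ
  refine ⟨W, ?_, fun v hv => ?_⟩
  · have h1 := hW (fun _ => False)
    have h2 : Ψ (fun _ => False) = 0 := by
      simp only [Ψ, q, ind_neg not_false, zero_mul, av_zero]; norm_num
    have h3 := (abs_le.1 (quad hm hl (fun a => ind (W a)))).2
    simp only [ind_sq] at h3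
    have h4 : av (fun a => ind (W a) * b a) ≤ av b :=
      av_mono fun a => by nlinarith [ind_le_one (W a), hb a]
    have h5 : Ψ W = av (fun a => ind (W a) * b a) +
      av (fun a => ind (W a) * (MM s (fun a => ind (W a)) a - av (fun a => ind (W a)))) / 2 -
        c * av (fun a => ind (W a)) := rfl
    linarith
  · have h1 := hW (fun a => W a ∨ a = v)
    have e1 : (fun a => ind (W a ∨ a = v)) = fun a => ind (W a) + ind (a = v) := by
      funext a
      by_cases ha : a = v
      · subst ha; rw [ind_pos (Or.inr rfl), ind_neg hv, ind_pos rfl]; norm_num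
      · rw [ind_neg ha, add_zero]; exact ind_congr ⟨fun h => h.resolve_right ha, Or.inl⟩
    set w : V k → ℝ := fun a => ind (W a) with hw
    set d : V k → ℝ := fun a => ind (a = v) with hd
    have hn : (0 : ℝ) < Fintype.card (V k) := card_pos'
    set n : ℝ := (Fintype.card (V k) : ℝ) with hn'
    have hd1 : ∀ f : V k → ℝ, av (fun a => d a * f a) = f v / n := fun f => av_single v f
    have hd2 : av d = 1 / n := by
      have := hd1 (fun _ => 1)
      simpa using this
    have hM : MM s (fun a => w a + d a) = fun a => MM s w a + MM s d a := by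
      funext a; exact av_add _ _
    have hq : q (fun a => w a + d a) = q w + 2 * ((MM s w v - av w) / n) + q d := by
      simp only [q, hM]
      rw [av_add w d]
      have e2 : (fun a => (w a + d a) * (MM s w a + MM s d a - (av w + av d))) =
          fun a => w a * (MM s w a - av w) + (w a * MM s d a - w a * av d) +
            d a * (MM s w a - av w) + d a * (MM s d a - av d) := by
        funext a; ring
      rw [e2, av_add, av_add, av_add, av_sub, MM_symm s d w, hd1, hd1 (fun a => MM s w a - av w),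
        av_mul_right, hd2]
      field_simp
      ring
    have hqd : -(lam / n) ≤ q d := by
      have h3 := (abs_le.1 (quad hm hl d)).1
      have : (fun a => d a ^ 2) = d := by funext a; exact ind_sq _
      rw [this] at h3
      have h4 : lam * av d = lam / n := by rw [hd2]; ring
      rw [h4] at h3
      exact h3
    have h5 : Ψ W = av (fun a => w a * b a) + q w / 2 - c * av w := rfl
    have h6 : Ψ (fun a => W a ∨ a = v) = av (fun a => w a * b a) + b v / n +
        q (fun a => w a + d a) / 2 - c * (av w + 1 / n) := by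
      have e3 : ∀ a, ind (W a ∨ a = v) = w a + d a := fun a => congrFun e1 a
      simp only [Ψ, e3, add_mul]
      rw [av_add, av_add w d, hd1, hd2]
    rw [h5, h6, hq] at h1
    have h7 : (b v + (MM s w v - av w) - lam / 2 - c) / n ≤ 0 := by
      have : (b v + (MM s w v - av w) - lam / 2 - c) / n =
        b v / n + (MM s w v - av w) / n - lam / n / 2 - c * (1 / n) := by field_simp
      linarith
    have h8 := (div_nonpos_iff.1 h7).resolve_left (fun h => absurd h.2 (not_le.2 hn))
    linarith [h8.1]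

/-! Fourier analysis -/

/-- sign -/
def sgn (z : ZMod 2) : ℝ := if z = 0 then 1 else -1

lemma sgn_add (z w : ZMod 2) : sgn (z + w) = sgn z * sgn w := by
  have h11 : (1 : ZMod 2) + 1 = 0 := by decide
  have h10 : (1 : ZMod 2) ≠ 0 := by decide
  rcases z2_cases z with h | h <;> rcases z2_cases w with h' | h' <;> subst h h' <;>
    simp [sgn, h11]

lemma sgn_zero : sgn 0 = 1 := by simp [sgn]

lemma abs_sgn (z : ZMod 2) : |sgn z| = 1 := by
  unfold sgn; split_ifs <;> simp

lemma sum_sgn_zero {A : Type} [AddCommGroup A] [Fintype A] (l : A → ZMod 2)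
    (hl : ∀ x y, l (x + y) = l x + l y) (y0 : A) (h : l y0 ≠ 0) : ∑ y, sgn (l y) = 0 := by
  have h1 : ∑ y, sgn (l (y + y0)) = ∑ y, sgn (l y) :=
    Equiv.sum_comp (Equiv.addRight y0) (fun y => sgn (l y))
  have h2 : sgn (l y0) = -1 := by simp [sgn, h]
  simp only [hl, sgn_add, h2, mul_neg, mul_one, sum_neg_distrib] at h1
  linarith

/-- character -/
def chi (c a : V k) : ℝ := sgn (∑ i, c i * a i)

lemma chi_add (c a b : V k) : chi c (a + b) = chi c a * chi c b := by
  simp only [chi, Pi.add_apply, mul_add, sum_add_distrib, sgn_add]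

lemma chi_comm (c a : V k) : chi c a = chi a c := by
  simp only [chi, mul_comm]

lemma chi_zero (a : V k) : chi 0 a = 1 := by simp [chi, sgn_zero]

lemma sum_chi {c : V k} (hc : c ≠ 0) : ∑ a, chi c a = 0 := by
  obtain ⟨i, hi⟩ := Function.ne_iff.1 hc
  refine sum_sgn_zero (fun a : V k => ∑ i, c i * a i) (fun x y => ?_) (Pi.single i 1) ?_
  · simp only [Pi.add_apply, mul_add, sum_add_distrib]
  · rw [sum_eq_single i]
    · simpa using hi
    · intro b _ hb; simp [Pi.single_eq_of_ne hb]
    · intro h; exact absurd (mem_univ i) h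

lemma parseval (ψ : V k → ℝ) :
    ∑ c, (∑ a, ψ a * chi c a) ^ 2 = Fintype.card (V k) * ∑ a, ψ a ^ 2 := by
  have h1 : ∀ c, (∑ a, ψ a * chi c a) ^ 2 = ∑ a, ∑ b, ψ a * ψ b * chi (a + b) c := by
    intro c
    rw [sq, sum_mul_sum]
    refine sum_congr rfl fun a _ => sum_congr rfl fun b _ => ?_
    rw [chi_comm (a + b), chi_add]; ring
  simp only [h1]
  rw [sum_comm, mul_sum]
  refine sum_congr rfl fun a _ => ?_
  rw [sum_comm, sum_eq_single a]
  · rw [V_add_self]
    simp only [chi_zero, sum_const, card_univ, nsmul_eq_mul]; ring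
  · intro b _ hb
    rw [← mul_sum, sum_chi, mul_zero]
    intro h
    apply hb
    have : a + b + a = a := by rw [h, zero_add]
    rwa [add_right_comm, V_add_self, zero_add] at this
  · intro h; exact absurd (mem_univ a) h

lemma mix_of_bias [Nonempty S] (hb : ∀ c : V k, c ≠ 0 → |av (fun σ => chi c (s σ))| ≤ lam) :
    Mix s lam := by
  intro φ
  have hn : (0 : ℝ) < Fintype.card (V k) := card_pos'
  have h1 : ∀ c, ∑ a, MM s φ a * chi c a = av (fun σ => chi c (s σ)) * ∑ a, φ a * chi c a := by
    intro c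
    unfold MM
    simp only [← av_mul_right]
    rw [← av_sum]
    refine av_congr fun σ => ?_
    rw [← Equiv.sum_comp (Equiv.addRight (s σ)), mul_sum]
    refine sum_congr rfl fun a _ => ?_
    simp only [Equiv.coe_addRight]
    rw [add_assoc, V_add_self, add_zero, chi_add]; ring
  have h2 : ∀ c, (∑ a, (MM s φ a - av φ) * chi c a) ^ 2 ≤ lam ^ 2 * (∑ a, φ a * chi c a) ^ 2 := by
    intro c
    simp only [sub_mul, sum_sub_distrib, h1, ← mul_sum]
    by_cases hc : c = 0
    · subst hc
      simp only [chi_zero, av_const, mul_one, one_mul, sum_const, card_univ, nsmul_eq_mul]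
      have : av φ * (Fintype.card (V k) : ℝ) = ∑ a, φ a := by
        unfold av; field_simp
      rw [this, sub_self, zero_pow two_ne_zero]
      positivity
    · rw [sum_chi hc, mul_zero, sub_zero, mul_pow]
      refine mul_le_mul_of_nonneg_right ?_ (sq_nonneg _)
      rw [← sq_abs]
      exact pow_le_pow_left₀ (abs_nonneg _) (hb c hc) 2
  have h3 := sum_le_sum (s := univ) fun c _ => h2 c
  rw [← mul_sum, parseval, parseval] at h3
  unfold av at h3 ⊢
  rw [← mul_div_assoc]
  refine div_le_div_of_nonneg_right ?_ hn.le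
  nlinarith

end Pool.Agent.H826Z.PS
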