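import Pool.Agent.H826Z.PS.SI

namespace Pool.Agent.H826Z.PS

open Finset

variable {k : ℕ} {S : Type} [Fintype S] {X : Type}

/-- `g ^ z` -/
def gp (g : Equiv.Perm X) (z : ZMod 2) : Equiv.Perm X := if z = 0 then 1 else g

/-- failure of the tests for adding `g` -/
noncomputable def NN (s : S → V k) (e : Fin k → Equiv.Perm X) (g : Equiv.Perm X) (z : X) : ℝ :=
  av (fun σ => ind (¬ (g (uu s e σ z) = uu s e σ (g z) ∧ g (g (uu s e σ z)) = uu s e σ z ∧
    (∀ i, g (e i z) = e i (g z)) ∧ g (g z) = z)))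

/-- points in nice charts -/
def InX (s : S → V k) (e : Fin k → Equiv.Perm X) (y : X) : Prop :=
  ∃ ω, Nice s e ω ∧ ω 0 = some y

/-- lost and undetected points -/
def Miss (s : S → V k) (e e' : Fin k → Equiv.Perm X) (T : X → ℝ) (y : X) : Prop :=
  ¬ InX s e' y ∧ T y ≤ 1 / (8 * 10 ^ 6) ∧ av (fun σ => T (uu s e σ y)) ≤ 1 / (4 * 10 ^ 6)

/-- relation between consecutive systems -/
structure Next (s : S → V k) (e e' : Fin k → Equiv.Perm X) (t : Fin k) (g : Equiv.Perm X) :
    Prop where
  h0 : e t = 1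
  h1 : e' t = g
  h2 : ∀ i, i ≠ t → e' i = e i
  hu : ∀ σ, uu s e' σ = gp g (s σ t) * uu s e σ

/-- twisted chart -/
def twist (t : Fin k) (g : Equiv.Perm X) (ω : V k → Option X) : V k → Option X :=
  fun a => (ω a).map (gp g (a t))

variable {s : S → V k} {e e' : Fin k → Equiv.Perm X} {lam : ℝ} {t : Fin k} {g : Equiv.Perm X}

lemma gp_zero : gp g 0 = 1 := by simp [gp]
lemma gp_one : gp g 1 = g := by simp [gp]

lemma dev_twist [Nonempty S] (hn : Next s e e' t g) {T : X → ℝ} (hT : ∀ y, NN s e g y ≤ T y)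
    (ω : V k → Option X) (a : V k) :
    dev s (uu s e') (twist t g ω) a ≤ dev s (uu s e) ω a + lift T (ω a) := by
  have h11 : (1 : ZMod 2) + 1 = 0 := by decide
  cases h1 : ω a with
  | none =>
    rw [dev_none h1]
    exact (dev_le_one _ _).trans (le_add_of_nonneg_right le_rfl)
  | some z =>
    refine le_trans ?_ (add_le_add le_rfl (hT z))
    unfold dev NN
    rw [← av_add]
    refine av_mono fun σ => ind_le2 fun g0 => ?_
    by_contra hc
    push Not at hc
    obtain ⟨⟨y, g1, g2⟩, g3, g4, -, -⟩ := hc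
    rw [h1] at g1
    cases g1
    refine g0 ⟨gp g (a t) z, by simp [twist, h1], ?_⟩
    simp only [twist, g2, Option.map_some, hn.hu, Pi.add_apply, Equiv.Perm.mul_apply]
    congr 1
    rcases z2_cases (a t) with h | h <;> rcases z2_cases (s σ t) with h' | h' <;>
      simp only [h, h', add_zero, zero_add, h11, gp_zero, gp_one, Equiv.Perm.one_apply]
    · exact g3
    · rw [← g3, g4]

lemma egood_twist [Nonempty S] (hn : Next s e e' t g) {T : X → ℝ} (hT : ∀ y, NN s e g y ≤ T y)
    (ω : V k → Option X) (a : V k) (i : Fin k) :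
    ind (¬ egood e' (twist t g ω) a i) ≤ ind (¬ egood e ω a i) + lift T (ω a) := by
  have h11 : (1 : ZMod 2) + 1 = 0 := by decide
  have hT0 : ∀ y, 0 ≤ T y := fun y => (av_ind_nonneg _).trans (hT y)
  have n1 := lift_nonneg hT0 (ω a)
  by_cases g1 : egood e ω a i
  swap
  · rw [ind_pos g1]; linarith [ind_le_one (¬ egood e' (twist t g ω) a i)]
  rw [ind_neg (not_not.2 g1), zero_add]
  refine ind_le n1 fun g0 => ?_
  obtain ⟨z, g1, g2⟩ := g1
  rw [g1]
  refine le_trans ?_ (hT z)
  refine le_av_of_le fun σ => (ind_pos ?_).ge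
  rintro ⟨-, -, g3, g4⟩
  refine g0 ⟨gp g (a t) z, by simp [twist, g1], ?_⟩
  simp only [twist, g2, Option.map_some, Pi.add_apply]
  congr 1
  by_cases hi : i = t
  · subst hi
    rw [hn.h0, hn.h1]
    simp only [eps, Pi.single_eq_same, Equiv.Perm.one_apply]
    rcases z2_cases (a i) with h | h <;>
      simp only [h, zero_add, h11, gp_zero, gp_one, Equiv.Perm.one_apply]
    exact g4.symm
  · rw [hn.h2 i hi]
    simp only [eps, Pi.single_eq_of_ne (Ne.symm hi), add_zero]
    rcases z2_cases (a t) with h | h <;>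
      simp only [h, gp_zero, gp_one, Equiv.Perm.one_apply]
    exact g3 i

lemma build [Nonempty S] (hm : Mix s lam) (hl : 0 ≤ lam) (hl1 : lam ≤ 1 / 1000)
    {ω : V k → Option X} {x : ℝ} (hx : x ≤ 1 / 10 ^ 6)
    (h1 : av (dev s (uu s e') ω) ≤ 8 * x) (h2 : ∀ i, av (fun a => ind (¬ egood e' ω a i)) ≤ 24 * x) :
    ∃ W : V k → Prop, av (fun a => ind (W a)) ≤ 200 * x ∧ ∀ a y, ω a = some y →
      dev s (uu s e') ω a + MM s (fun a => ind (W a)) a ≤ 1 / 10 → InX s e' y := by
  classical
  obtain ⟨W, hW1, hW2⟩ := prune hm hl (dev s (uu s e') ω) (dev_nonneg ω) (1 / 20)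
  have hw0 := av_ind_nonneg W
  have hw : av (fun a => ind (W a)) ≤ 200 * x := by nlinarith
  refine ⟨W, hw, fun a0 y hy hfit => ?_⟩
  let ω2 : V k → Option X := fun a => if W a then none else ω a
  have hd : ∀ a, ¬ W a → dev s (uu s e') ω2 a ≤
      dev s (uu s e') ω a + MM s (fun a => ind (W a)) a := by
    intro a ha
    unfold dev MM
    rw [← av_add]
    refine av_mono fun σ => ind_le2 fun g0 => ?_
    by_contra hc
    push Not at hc
    obtain ⟨⟨z, g1, g2⟩, g3⟩ := hc
    exact g0 ⟨z, by simp [ω2, ha, g1], by simp [ω2, g3, g2]⟩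
  have hc : IsChart s (uu s e') ω2 := fun a ha => by
    have h3 : ¬ W a := fun h => ha (by simp [ω2, h])
    linarith [hd a h3, hW2 a h3]
  have hne : ∃ a, ω2 a ≠ none := by
    obtain ⟨a, ha⟩ : ∃ a, ¬ W a := exists_of_av_lt_one (by simp only [not_not]; linarith)
    refine ⟨a, fun h => ?_⟩
    have h3 : ω a = none := by simpa [ω2, ha] using h
    have h4 := hW2 a ha
    rw [dev_none h3] at h4
    linarith [MM_nonneg s (fun a => ind_nonneg (W a)) a]
  obtain ⟨ω3, hmax, hext⟩ := exists_max hc hne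
  have hnice : Nice s e' ω3 := by
    refine ⟨hmax, ?_, fun i => ?_⟩
    · have h3 : av (dev s (uu s e') ω3) ≤ av (fun a => ind (W a)) + av (dev s (uu s e') ω) +
          av (MM s (fun a => ind (W a))) := by
        rw [← av_add, ← av_add]
        refine av_mono fun a => (dev_anti hext a).trans ?_
        by_cases ha : W a
        · rw [ind_pos ha]
          linarith [MM_nonneg s (fun a => ind_nonneg (W a)) a, dev_le_one (s := s) (u := uu s e') ω2 a,
            dev_nonneg (s := s) (u := uu s e') ω a]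
        · rw [ind_neg ha]; linarith [hd a ha]
      rw [av_MM] at h3
      linarith
    · have h3 : av (fun a => ind (¬ egood e' ω3 a i)) ≤ av (fun a => ind (¬ egood e' ω a i)) +
          av (fun a => ind (W a)) + av (fun a => ind (W (a + eps i))) := by
        rw [← av_add, ← av_add]
        refine av_mono fun a => ind_le3 fun g0 => ?_
        by_contra hc
        push Not at hc
        obtain ⟨⟨z, g1, g2⟩, g3, g4⟩ := hc
        exact g0 ⟨z, hext _ _ (by simp [ω2, g3, g1]), hext _ _ (by simp [ω2, g4, g2])⟩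
      rw [av_shift (fun a => ind (W a))] at h3
      linarith [h2 i]
  refine ⟨shift a0 ω3, hnice.shift a0, ?_⟩
  simp only [shift, zero_add]
  refine fit hmax (le_trans ?_ hfit)
  unfold dev MM
  rw [← av_add]
  refine av_mono fun σ => ind_le2 fun g0 => ?_
  by_contra hc
  push Not at hc
  obtain ⟨⟨z, g1, g2⟩, g3⟩ := hc
  rw [hy] at g1
  cases g1
  exact g0 (hext _ _ (by simp [ω2, g3, g2]))

lemma step_half [Nonempty S] (hm : Mix s lam) (hl : 0 ≤ lam) (hl1 : lam ≤ 1 / 1000)
    (hD : k * lam ^ 2 ≤ 1 / 10 ^ 6) (hn : Next s e e' t g) {T : X → ℝ} (hT1 : ∀ y, T y ≤ 1)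
    (hT2 : ∀ y, T2 s e y ≤ T y) (hT3 : ∀ y, NN s e g y ≤ T y)
    {ω : V k → Option X} (h : Nice s e ω) :
    av (fun a => ind (a t = 0 ∧ ∃ y, ω a = some y ∧ Miss s e e' T y)) ≤
      12 * 10 ^ 12 * ((k + 1) * lam ^ 2) * av (fun a => lift T (ω a)) := by
  have hT0 : ∀ y, 0 ≤ T y := fun y => (T2_nonneg y).trans (hT2 y)
  obtain ⟨s1, s2, s3⟩ := self_improve hm hl hl1 hD h hT2
  set Tb := av (fun a => lift T (ω a)) with hTb
  have hTb0 : 0 ≤ Tb := av_nonneg fun a => lift_nonneg hT0 _
  have hx := markov (xx_nonneg (s := s) (e := e) ω) (p := fun a => 1 / (8 * 10 ^ 6) < xx s e ω a)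
    (g := 1 / (8 * 10 ^ 6)) (fun a ha => ha.le)
  have hl2 : 0 ≤ lam ^ 2 * Tb := by positivity
  have hl3 : 0 ≤ k * lam ^ 2 * Tb := by positivity
  by_cases hc : Tb ≤ 1 / 10 ^ 6
  · have b1 : av (dev s (uu s e') (twist t g ω)) ≤ 8 * Tb := by
      have := av_mono (dev_twist hn hT3 ω)
      rw [av_add] at this
      linarith
    have b2 : ∀ i, av (fun a => ind (¬ egood e' (twist t g ω) a i)) ≤ 24 * Tb := by
      intro i
      have := av_mono (fun a => egood_twist hn hT3 ω a i)
      rw [av_add] at this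
      linarith [s2 i]
    obtain ⟨W, hW1, hW2⟩ := build hm hl hl1 hc b1 b2
    have c1 := cheb hm (φ := fun a => ind (W a)) (fun _ => ind_nonneg _) (fun _ => ind_le_one _)
      (p := fun a => 1 / 40 < MM s (fun a => ind (W a)) a) (g := 1 / 50) (by norm_num)
      (fun a ha => le_trans (by linarith) (le_abs_self _))
    have c2 : av (fun a => ind (a t = 0 ∧ ∃ y, ω a = some y ∧ Miss s e e' T y)) ≤
        av (fun a => ind (1 / (8 * 10 ^ 6) < xx s e ω a)) +
          av (fun a => ind (1 / 40 < MM s (fun a => ind (W a)) a)) := by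
      rw [← av_add]
      refine av_mono fun a => ind_le2 ?_
      rintro ⟨g1, y, g2, g3, g4, -⟩
      by_contra hc
      push Not at hc
      refine g3 (hW2 a y (by simp [twist, g2, g1, gp_zero]) ?_)
      have d1 := dev_twist hn hT3 ω a
      rw [g2] at d1
      have d2 : lift T (some y) = T y := rfl
      linarith [lemD h.1 g2, hT2 y, hc.1, hc.2]
    have c3 := mul_le_mul_of_nonneg_left hW1 (sq_nonneg lam)
    nlinarith
  · push Not at hc
    have c1 := cheb hm (φ := fun a => lift T (ω a)) (fun _ => lift_nonneg hT0 _)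
      (fun _ => lift_le_one hT1 _)
      (p := fun a => MM s (fun a => lift T (ω a)) a ≤ 1 / (2 * 10 ^ 6)) (g := 1 / (2 * 10 ^ 6))
      (by norm_num) (fun a ha => le_trans (by linarith) (neg_le_abs _))
    have c2 : av (fun a => ind (a t = 0 ∧ ∃ y, ω a = some y ∧ Miss s e e' T y)) ≤
        av (fun a => ind (1 / (8 * 10 ^ 6) < xx s e ω a)) +
          av (fun a => ind (MM s (fun a => lift T (ω a)) a ≤ 1 / (2 * 10 ^ 6))) := by
      rw [← av_add]
      refine av_mono fun a => ind_le2 ?_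
      rintro ⟨-, y, g2, -, g4, g5⟩
      by_cases g6 : 1 / (8 * 10 ^ 6) < xx s e ω a
      · exact Or.inl g6
      right
      have d1 : MM s (fun a => lift T (ω a)) a ≤
          av (fun σ => T (uu s e σ y)) + dev s (uu s e) ω a := by
        unfold MM dev
        rw [← av_add]
        refine av_mono fun σ => ?_
        by_cases g7 : good s (uu s e) ω a σ
        · obtain ⟨z, g8, g9⟩ := g7
          rw [g2] at g8
          cases g8
          simp only [g9]
          exact le_add_of_nonneg_right (ind_nonneg _)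
        · rw [ind_pos g7]
          linarith [lift_le_one hT1 (ω (a + s σ)), hT0 (uu s e σ y)]
      linarith [lemD h.1 g2, hT2 y]
    nlinarith

lemma step_chart [Nonempty S] (hm : Mix s lam) (hl : 0 ≤ lam) (hl1 : lam ≤ 1 / 1000)
    (hD : k * lam ^ 2 ≤ 1 / 10 ^ 6) (hn : Next s e e' t g) {T : X → ℝ} (hT1 : ∀ y, T y ≤ 1)
    (hT2 : ∀ y, T2 s e y ≤ T y) (hT3 : ∀ y, NN s e g y ≤ T y)
    {ω : V k → Option X} (h : Nice s e ω) :
    av (fun a => lift (fun y => ind (Miss s e e' T y)) (ω a)) ≤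
      24 * 10 ^ 12 * ((k + 1) * lam ^ 2) * av (fun a => lift T (ω a)) := by
  have h11 : (1 : ZMod 2) + 1 = 0 := by decide
  have h1 := step_half hm hl hl1 hD hn hT1 hT2 hT3 h
  have h2 := step_half hm hl hl1 hD hn hT1 hT2 hT3 (h.shift (eps t))
  rw [← av_shift _ (eps t)] at h2
  simp only [shift, add_assoc, V_add_self, add_zero] at h2
  rw [av_shift (fun a => lift T (ω a))] at h2
  have h3 : av (fun a => lift (fun y => ind (Miss s e e' T y)) (ω a)) ≤
      av (fun a => ind (a t = 0 ∧ ∃ y, ω a = some y ∧ Miss s e e' T y)) +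
        av (fun a => ind ((a + eps t) t = 0 ∧ ∃ y, ω a = some y ∧ Miss s e e' T y)) := by
    rw [← av_add]
    refine av_mono fun a => ?_
    cases g1 : ω a with
    | none => exact add_nonneg (ind_nonneg _) (ind_nonneg _)
    | some y =>
      refine ind_le2 fun g2 => ?_
      rcases z2_cases (a t) with g3 | g3
      · exact Or.inl ⟨g3, y, rfl, g2⟩
      · exact Or.inr ⟨by simp [eps, g3, h11], y, rfl, g2⟩
  linarith

end Pool.Agent.H826Z.PS
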